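import Pool.Agent.Work.MP_9d4fac_cox.Interface
import Pool.Agent.Work.MP_9d4fac_gt.S_braid

set_option autoImplicit false

namespace Pool.BraidIndex.Cox

open Pool.BraidIndex

section
variable {Q L : Type} [SemilatticeSup L] [OrderBot L] (K : Kei Q L)

theorem ls_nil : ls K [] = ⊥ := rfl

theorem ls_cons (a : Q) (v : List Q) : ls K (a :: v) = K.U a ⊔ ls K v := rfl

theorem ls_append (v w : List Q) : ls K (v ++ w) = ls K v ⊔ ls K w := by
  induction v with
  | nil => simp [ls_nil]
  | cons a v ih => rw [List.cons_append, ls_cons, ls_cons, ih, sup_assoc]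

/-- as many colours as cups generate all colours -/
theorem sp_cups (D : List Piece) : ∀ (v : List Q) (H : L), H ∈ Sp K D v →
    ∃ cs : List Q, cs.length = cups D ∧ H ≤ ls K v ⊔ ls K cs := by
  induction D with
  | nil =>
    intro v H hH
    obtain ⟨-, h2⟩ := hH
    exact ⟨[], rfl, by rw [h2]; exact bot_le⟩
  | cons q D ih =>
    intro v H hH
    obtain ⟨v', ⟨l, u, r, u', hl, hu, rfl, hu', rfl⟩, H', hH', rfl⟩ := hH
    obtain ⟨cs, hcs, hle⟩ := ih _ _ hH'
    obtain ⟨k, i⟩ := q
    cases k with
    | cup o =>
      have : u = [] := List.length_eq_zero_iff.1 hu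
      subst this
      obtain ⟨c, rfl⟩ := hu'
      refine ⟨c :: cs, by simp [cups, hcs], ?_⟩
      refine sup_le le_sup_left (hle.trans ?_)
      simp only [ls_append, ls_cons, ls_nil, sup_bot_eq]
      refine sup_le (sup_le (sup_le ?_ ?_) ?_) ?_
      · exact le_sup_left.trans le_sup_left
      · exact sup_le (le_sup_left.trans le_sup_right) (le_sup_left.trans le_sup_right)
      · exact le_sup_right.trans le_sup_left
      · exact le_sup_right.trans le_sup_right
    | cap =>
      obtain ⟨a, b, rfl⟩ := len2 hu
      obtain ⟨-, rfl⟩ := hu'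
      refine ⟨cs, hcs, sup_le le_sup_left (hle.trans (sup_le_sup_right ?_ _))⟩
      simp only [ls_append, ls_cons, ls_nil, sup_bot_eq]
      exact sup_le_sup_right le_sup_left _
    | cross s =>
      obtain ⟨a, b, rfl⟩ := len2 hu
      refine ⟨cs, hcs, sup_le le_sup_left (hle.trans (sup_le_sup_right ?_ _))⟩
      have hu2 : u' = if s then [K.op a b, a] else [b, K.op b a] := hu'
      have h1 := K.sub a b
      have h2 := K.sub b a
      rw [hu2, ls_append, ls_append, ls_append, ls_append]
      refine sup_le_sup_right (sup_le_sup_left ?_ _) _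
      cases s
      · simp only [Bool.false_eq_true, if_false, ls_cons, ls_nil, sup_bot_eq]
        exact sup_le le_sup_right (h2.trans (sup_comm _ _).le)
      · simp only [if_true, ls_cons, ls_nil, sup_bot_eq]
        exact sup_le h1 le_sup_left

end

theorem cups_braid (n : ℕ) (w : List (ℕ × Bool)) : cups (braidClosure n w) = n := by
  unfold braidClosure
  rw [cups_append, cups_append, cups_cross, cups_cap, cups_cup, List.length_range, add_zero, add_zero]

theorem c_braid : T_braid := by
  intro Q L _ _ K n w H hH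
  obtain ⟨cs, h1, h2⟩ := sp_cups K _ _ _ hH
  rw [cups_braid] at h1
  rw [ls_nil, bot_sup_eq] at h2
  exact ⟨cs, h1, h2⟩

end Pool.BraidIndex.Cox
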