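import Pool.Agent.Work.MP_9d4fac_cox.Interface

/-!
# Coxeter version: a compatible function on the points gives a colouring
-/

set_option autoImplicit false

namespace Pool.BraidIndex.Cox

open Pool.BraidIndex

namespace CL

variable {Q : Type}

/-- the colours of level `t` -/
def lv (D : List Piece) (c : ℕ × ℕ → Q) (t : ℕ) : List Q :=
  (List.range (ori D t).length).map fun j => c (t, j)

theorem lv_split (D : List Piece) (c : ℕ × ℕ → Q) {t a b d : ℕ}
    (h : (ori D t).length = a + b + d) :
    lv D c t = (List.range a).map (fun j => c (t, j)) ++ (List.range b).map (fun j => c (t, a + j)) ++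
      (List.range d).map (fun j => c (t, a + b + j)) := by
  rw [lv, h, List.range_add, List.range_add, List.map_append, List.map_append, List.map_map,
    List.map_map]
  rfl

theorem left_eq {D : List Piece} (hD : IsDiagram D) {c : ℕ × ℕ → Q}
    (hs : ∀ a b, InR D a → InR D b → Smooth D a b → c a = c b) {t i : ℕ} {k : Kind}
    (h : D[t]? = some (k, i)) {j : ℕ} (hj : j < i) : c (t, j) = c (t + 1, j) := by
  obtain ⟨ht, m, h1, h2⟩ := Lower.len_step hD h
  refine hs _ _ ⟨by simp only; omega, by simp only; omega⟩ ⟨by simp only; omega, by simp only; omega⟩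
    (Smooth.left t j i k h hj)

theorem right_eq {D : List Piece} (hD : IsDiagram D) {c : ℕ × ℕ → Q}
    (hs : ∀ a b, InR D a → InR D b → Smooth D a b → c a = c b) {t i : ℕ} {k : Kind}
    (h : D[t]? = some (k, i)) {m : ℕ} (h1 : (ori D t).length = i + k.ar + m)
    (h2 : (ori D (t + 1)).length = i + k.oar + m) {j : ℕ} (hj : j < m) :
    c (t, i + k.ar + j) = c (t + 1, i + k.oar + j) := by
  obtain ⟨ht, -⟩ := Lower.len_step hD h
  refine hs _ _ ⟨by simp only; omega, by simp only; omega⟩ ⟨by simp only; omega, by simp only; omega⟩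
    (Smooth.right t j i k h)

variable {L : Type} [SemilatticeSup L] [OrderBot L] (K : Kei Q L)

/-- the colours at a crossing in `X` -/
theorem crossX {D : List Piece} (hD : IsDiagram D) {c : ℕ × ℕ → Q}
    (hs : ∀ a b, InR D a → InR D b → Smooth D a b → c a = c b) {t i : ℕ} {s : Bool}
    (h : D[t]? = some (.cross s, i)) (a1 : c (t, i) = c (t, i + 1)) (a2 : c (t, i) = c (t + 1, i)) :
    c (t + 1, i + 1) = c (t, i) := by
  obtain ⟨ht, m, h1, h2⟩ := Lower.len_step hD h
  simp only [Kind.ar] at h1
  simp only [Kind.oar] at h2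
  by_cases hp : Par D t i
  · have := hs _ _ ⟨by simp only; omega, by simp only; omega⟩
      ⟨by simp only; omega, by simp only; omega⟩ (Smooth.par1 t i s h hp)
    rw [← this, ← a1]
  · have := hs _ _ ⟨by simp only; omega, by simp only; omega⟩
      ⟨by simp only; omega, by simp only; omega⟩ (Smooth.anti1 t i s h hp)
    rw [← this, ← a2]

/-- the next level -/
theorem lv_mem {D : List Piece} (hD : IsDiagram D) {X : Finset ℕ} {c : ℕ × ℕ → Q}
    (hs : ∀ a b, InR D a → InR D b → Smooth D a b → c a = c b)
    (hX : ∀ t ∈ X, ∀ s i, D[t]? = some (.cross s, i) → c (t, i) = c (t, i + 1) ∧ c (t, i) = c (t + 1, i))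
    {t i : ℕ} {k : Kind} (h : D[t]? = some (k, i))
    (hk : ∀ s, k = .cross s → t ∈ X) : lv D c (t + 1) ∈ acts K (k, i) (lv D c t) := by
  obtain ⟨ht, m, h1, h2⟩ := Lower.len_step hD h
  rw [lv_split D c h1, lv_split D c h2]
  have e1 : (List.range i).map (fun j => c (t + 1, j)) = (List.range i).map (fun j => c (t, j)) := by
    refine List.map_congr_left fun j hj => ?_
    exact (left_eq hD hs h (List.mem_range.1 hj)).symm
  have e2 : (List.range m).map (fun j => c (t + 1, i + k.oar + j)) =
      (List.range m).map (fun j => c (t, i + k.ar + j)) := by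
    refine List.map_congr_left fun j hj => ?_
    exact (right_eq hD hs h h1 h2 (List.mem_range.1 hj)).symm
  rw [e1, e2]
  refine ⟨_, _, _, _, by simp, by simp, rfl, ?_, rfl⟩
  cases k with
  | cup o =>
    have e3 : c (t + 1, i) = c (t + 1, i + 1) := by
      simp only [Kind.oar] at h2
      exact hs _ _ ⟨ht, by simp only; omega⟩ ⟨ht, by simp only; omega⟩ (Smooth.cup t i o h)
    simp only [Kind.ar, Kind.oar, List.range_zero, List.map_nil, List.range_succ, List.nil_append,
      List.map_cons, cols, Set.mem_ofPred_eq, List.cons_append, Nat.add_zero]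
    exact ⟨c (t + 1, i), by rw [e3]⟩
  | cap =>
    have e3 : c (t, i) = c (t, i + 1) := by
      simp only [Kind.ar] at h1
      exact hs _ _ ⟨by simp only; omega, by simp only; omega⟩
        ⟨by simp only; omega, by simp only; omega⟩ (Smooth.cap t i h)
    simp only [Kind.ar, Kind.oar, List.range_zero, List.map_nil, List.range_succ, List.nil_append,
      List.map_cons, cols, Set.mem_ofPred_eq, List.cons_append, Nat.add_zero, and_true]
    exact e3
  | cross s =>
    obtain ⟨a1, a2⟩ := hX t (hk s rfl) s i h
    have e4 := crossX hD hs h a1 a2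
    simp only [Kind.ar, Kind.oar, List.range_zero, List.map_nil, List.range_succ, List.nil_append,
      List.map_cons, cols, List.cons_append, Nat.add_zero, Set.mem_singleton_iff]
    rw [← a1, ← a2, e4, K.idem, ite_self]

theorem cross_eq {D : List Piece} (hD : IsDiagram D) {X : Finset ℕ} {c : ℕ × ℕ → Q}
    (hs : ∀ a b, InR D a → InR D b → Smooth D a b → c a = c b)
    (hX : ∀ t ∈ X, ∀ s i, D[t]? = some (.cross s, i) → c (t, i) = c (t, i + 1) ∧ c (t, i) = c (t + 1, i))
    (hpar : ∀ t s i, D[t]? = some (.cross s, i) → t ∉ X → Par D t i) {t i : ℕ} {s : Bool}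
    (h : D[t]? = some (.cross s, i)) (j : ℕ) (hj0 : j < (ori D t).length) :
    c (t + 1, j) = c (t, j) := by
  obtain ⟨ht, m, h1, h2⟩ := Lower.len_step hD h
  have h1' := h1
  have h2' := h2
  simp only [Kind.ar] at h1
  simp only [Kind.oar] at h2
  rcases lt_or_ge j i with hj | hj
  · exact (left_eq hD hs h hj).symm
  rcases lt_or_ge j (i + 2) with hj2 | hj2
  · by_cases hXt : t ∈ X
    · obtain ⟨a1, a2⟩ := hX t hXt s i h
      have e4 := crossX hD hs h a1 a2
      obtain rfl | rfl : j = i ∨ j = i + 1 := by omega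
      · exact a2.symm
      · rw [e4, a1]
    · have hp := hpar t s i h hXt
      obtain rfl | rfl : j = i ∨ j = i + 1 := by omega
      · exact (hs _ _ ⟨by simp only; omega, by simp only; omega⟩
            ⟨by simp only; omega, by simp only; omega⟩ (Smooth.par0 t j s h hp)).symm
      · exact (hs _ _ ⟨by simp only; omega, by simp only; omega⟩
            ⟨by simp only; omega, by simp only; omega⟩ (Smooth.par1 t i s h hp)).symm
  · have := right_eq hD hs h h1' h2' (j := j - (i + 2)) (by omega)
    simp only [Kind.ar, Kind.oar] at this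
    rw [show i + 2 + (j - (i + 2)) = j by omega] at this
    exact this.symm

theorem row_eq {D : List Piece} (hD : IsDiagram D) {X : Finset ℕ} {c : ℕ × ℕ → Q}
    (hs : ∀ a b, InR D a → InR D b → Smooth D a b → c a = c b)
    (hX : ∀ t ∈ X, ∀ s i, D[t]? = some (.cross s, i) → c (t, i) = c (t, i + 1) ∧ c (t, i) = c (t + 1, i))
    (hpar : ∀ t s i, D[t]? = some (.cross s, i) → t ∉ X → Par D t i) {t i : ℕ} {s : Bool} (n : ℕ)
    (h : ∀ t' < n, D[t + t']? = some (.cross s, i)) :
    ∀ t' ≤ n, (ori D (t + t')).length = (ori D t).length ∧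
      ∀ j < (ori D t).length, c (t + t', j) = c (t, j) := by
  intro t'
  induction t' with
  | zero => intro _; exact ⟨rfl, fun _ _ => rfl⟩
  | succ t' ih =>
    intro h'
    obtain ⟨i1, i2⟩ := ih (by omega)
    refine ⟨?_, fun j hj => ?_⟩
    · rw [← i1, ← add_assoc, Lower.cross_len hD (h t' (by omega))]
    · rw [← i2 j hj, ← add_assoc, cross_eq hD hs hX hpar (h t' (by omega)) j (by rw [i1]; exact hj)]

theorem le_ls (v : List Q) {a : Q} (h : a ∈ v) : K.U a ≤ ls K v := by
  induction v with
  | nil => simp at h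
  | cons b v ih =>
    have e : ls K (b :: v) = K.U b ⊔ ls K v := rfl
    rw [e]
    rcases List.mem_cons.1 h with rfl | h
    · exact le_sup_left
    · exact (ih h).trans le_sup_right

theorem main (hrow : T_row) {D : List Piece} (hD : IsDiagram D) {X : Finset ℕ} {c : ℕ × ℕ → Q}
    (hs : ∀ a b, InR D a → InR D b → Smooth D a b → c a = c b)
    (hX : ∀ t ∈ X, ∀ s i, D[t]? = some (.cross s, i) → c (t, i) = c (t, i + 1) ∧ c (t, i) = c (t + 1, i))
    (hpar : ∀ t s i, D[t]? = some (.cross s, i) → t ∉ X → Par D t i) {t : ℕ} {B : List Piece}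
    (hR : RowsP X (fun t i r => (tw K)^[r] (c (t, i), c (t, i + 1)) = (c (t, i), c (t, i + 1))) t B) :
    ∀ A : List Piece, D = A ++ B → A.length = t →
      ∃ H ∈ Sp K B (lv D c t), ∀ q, InR D q → t ≤ q.1 → K.U (c q) ≤ H := by
  -- the general step
  have step : ∀ (t i : ℕ) (k : Kind) (B : List Piece),
      (∀ A : List Piece, D = A ++ B → A.length = t + 1 →
      ∃ H ∈ Sp K B (lv D c (t + 1)), ∀ q, InR D q → t + 1 ≤ q.1 → K.U (c q) ≤ H) →
      (∀ s, k = .cross s → t ∈ X) →
      ∀ A : List Piece, D = A ++ ((k, i) :: B) → A.length = t →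
      ∃ H ∈ Sp K ((k, i) :: B) (lv D c t), ∀ q, InR D q → t ≤ q.1 → K.U (c q) ≤ H := by
    intro t i k B ih hk A hA hAt
    have hget : D[t]? = some (k, i) := by
      rw [hA, ← hAt]; simp
    obtain ⟨H', hH', hq⟩ := ih (A ++ [(k, i)]) (by rw [hA]; simp) (by simp [hAt])
    refine ⟨ls K (lv D c t) ⊔ H', ⟨_, lv_mem K hD hs hX hget hk, H', hH', rfl⟩, ?_⟩
    rintro ⟨t', j⟩ hin ht'
    rcases Nat.lt_or_ge t t' with h | h
    · exact (hq _ hin h).trans le_sup_right
    · obtain rfl : t' = t := le_antisymm h ht'
      refine (le_ls K _ ?_).trans le_sup_left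
      rw [lv, List.mem_map]
      exact ⟨j, List.mem_range.2 hin.2, rfl⟩
  induction hR with
  | nil t =>
    intro A hA hAt
    rw [List.append_nil] at hA
    subst hA
    have hlen : (ori D t).length = 0 := by
      rw [ori, ← hAt, List.take_length]
      have h3 : runO D [] = some [] := hD
      rw [h3]
      simp
    refine ⟨⊥, ⟨?_, rfl⟩, ?_⟩
    · rw [lv, hlen]; rfl
    · rintro ⟨t', j⟩ hin ht'
      exfalso
      obtain ⟨h1, h2⟩ := hin
      simp only at h1 h2 ht'
      obtain rfl : t' = t := by omega
      omega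
  | cup t i o B _ ih => exact step t i _ B ih (fun s hs => by cases hs)
  | cap t i B _ ih => exact step t i _ B ih (fun s hs => by cases hs)
  | single t i s B htX _ ih => exact step t i _ B ih (fun _ _ => htX)
  | row t i r s B hP _ ih =>
    intro A hA hAt
    have hget : ∀ t' < r, D[t + t']? = some (.cross s, i) := by
      intro t' ht'
      rw [hA, ← hAt, List.getElem?_append_right (by omega),
        List.getElem?_append_left (by simp only [List.length_replicate]; omega)]
      rw [List.getElem?_replicate, if_pos (by omega)]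
    obtain ⟨H', hH', hq⟩ := ih (A ++ List.replicate r (.cross s, i)) (by rw [hA]; simp)
      (by simp [hAt])
    obtain ⟨r1, r2⟩ := row_eq hD hs hX hpar r hget r le_rfl
    have hlv : lv D c (t + r) = lv D c t := by
      rw [lv, lv, r1]
      exact List.map_congr_left fun j hj => r2 j (List.mem_range.1 hj)
    rw [hlv] at hH'
    refine ⟨H', ?_, ?_⟩
    · rcases Nat.eq_zero_or_pos r with rfl | h0
      · exact hH'
      · obtain ⟨ht, m, h1, h2⟩ := Lower.len_step hD (hget 0 h0)
        have h1' : (ori D t).length = i + 2 + m := h1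
        have hsp : lv D c t = (List.range i).map (fun j => c (t, j)) ++ [c (t, i), c (t, i + 1)] ++
            (List.range m).map (fun j => c (t, i + 2 + j)) := by
          rw [lv_split D c h1']
          rfl
        rw [hsp] at hH' ⊢
        exact hrow Q L K i r s B _ _ _ _ H' (by simp) hP hH'
    · rintro ⟨t', j⟩ hin ht'
      rcases Nat.lt_or_ge t' (t + r) with h | h
      · obtain ⟨d, rfl⟩ := Nat.exists_eq_add_of_le ht'
        obtain ⟨g1, g2⟩ := row_eq hD hs hX hpar r hget d (by omega)
        have hj : j < (ori D t).length := by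
          have := hin.2
          simp only at this
          rw [g1] at this
          exact this
        have hle : t + r ≤ D.length := by
          rw [hA]
          simp only [List.length_append, List.length_replicate]
          omega
        rw [g2 j hj, ← r2 j hj]
        exact hq (t + r, j) ⟨hle, by simp only; rw [r1]; exact hj⟩ le_rfl
      · exact hq _ hin h

end CL

theorem c_lower (hrow : T_row) : T_lower := by
  intro Q L _ _ K D X c hD hs hX hpar hR
  obtain ⟨H, hH, hq⟩ := CL.main K hrow hD hs hX hpar hR [] rfl rfl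
  refine ⟨H, ?_, fun q hin => hq q hin (Nat.zero_le _)⟩
  have e : CL.lv D c 0 = [] := by
    rw [CL.lv, ori, List.take_zero]
    rfl
  rw [e] at hH
  exact hH

end Pool.BraidIndex.Cox

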