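import Pool.Agent.Work.MP_9d4fac_cox.Interface

/-!
# Coxeter version: the geometric representation
-/

set_option autoImplicit false

namespace Pool.BraidIndex.Cox

open Pool.BraidIndex Real

namespace RF

open Polynomial.Chebyshev

theorem Sev (n : ℤ) (θ : ℝ) :
    (S ℝ n).eval (2 * cos θ) * sin θ = sin ((n + 1) * θ) := S_two_mul_real_cos θ n

variable {ι : Type} [Fintype ι] [DecidableEq ι] (m : ι → ι → ℕ)

/-- the bilinear form -/
noncomputable def BB (a b : ι) : ℝ := if a = b then 1 else -cos (π / m a b)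

/-- the linear forms -/
noncomputable def ff (a : ι) : Module.Dual ℝ (ι → ℝ) :=
  2 • ∑ b, BB m a b • LinearMap.proj b

theorem ff_single (a b : ι) : ff m a (Pi.single b 1) = 2 * BB m a b := by
  simp only [ff, LinearMap.smul_apply, LinearMap.sum_apply, LinearMap.proj_apply, smul_eq_mul,
    nsmul_eq_mul, Nat.cast_ofNat]
  rw [Finset.sum_eq_single b]
  · simp
  · intro c _ hc
    rw [Pi.single_eq_of_ne hc, mul_zero]
  · intro h
    exact absurd (Finset.mem_univ b) h

theorem ff_self (a : ι) : ff m a (Pi.single a 1) = 2 := by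
  rw [ff_single, BB, if_pos rfl, mul_one]

/-- the reflections -/
noncomputable def ss (a : ι) : Module.End ℝ (ι → ℝ) := (Module.reflection (ff_self m a)).toLinearMap

theorem ss_apply (a : ι) (v : ι → ℝ) : ss m a v = v - ff m a v • (Pi.single a 1 : ι → ℝ) := by
  rw [ss, LinearEquiv.coe_coe, Module.reflection_apply]

theorem ss_pow (a b : ι) (k : ℕ) (z : ι → ℝ) : ((ss m a * ss m b) ^ k) z =
    ((Module.reflection (ff_self m a) * Module.reflection (ff_self m b)) ^ k) z := by
  induction k generalizing z with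
  | zero => rfl
  | succ k ih =>
    rw [pow_succ, pow_succ, Module.End.mul_apply, LinearEquiv.mul_apply, ih]
    rfl

end RF

theorem c_refl : T_refl := by
  intro ι _ _ m hm
  refine ⟨RF.ss m, ?_, ?_, ?_, ?_⟩
  · intro a
    refine LinearMap.ext fun v => ?_
    rw [Module.End.mul_apply, RF.ss_apply, RF.ss_apply, map_sub, map_smul, RF.ff_self,
      Module.End.one_apply]
    module
  · intro a v
    refine ⟨RF.ff m a v, ?_⟩
    rw [RF.ss_apply]
    abel
  · intro a
    rw [RF.ss_apply, RF.ff_self, two_smul]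
    abel
  · intro a b hab
    obtain ⟨h2, hs⟩ := hm a b hab
    refine LinearMap.ext fun z => ?_
    have e1 : RF.ff m a (Pi.single b 1) = -(2 * cos (π / m a b)) := by
      rw [RF.ff_single, RF.BB, if_neg hab]; ring
    have e2 : RF.ff m b (Pi.single a 1) = -(2 * cos (π / m a b)) := by
      rw [RF.ff_single, RF.BB, if_neg hab.symm, ← hs]; ring
    have ht : 2 * cos (2 * (π / m a b)) =
        RF.ff m a (Pi.single b 1) * RF.ff m b (Pi.single a 1) - 2 := by
      rw [e1, e2, cos_two_mul]; ring
    rw [RF.ss_pow, Module.reflection_mul_reflection_pow_apply (RF.ff_self m a) (RF.ff_self m b)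
      (m a b) z _ ht]
    generalize m a b = n at *
    set θ : ℝ := 2 * (π / n) with hθ
    rcases Nat.even_or_odd' n with ⟨k, rfl | rfl⟩
    · rcases Nat.lt_or_ge k 2 with hk | hk
      · obtain rfl : k = 1 := by omega
        have e3 : cos (π / ((2 * 1 : ℕ) : ℝ)) = 0 := by
          norm_num
        have e4 : 2 * cos θ = -2 := by
          rw [ht, e1, e2, e3]; norm_num
        rw [e1, e2, e3, e4]
        have i1 : (((2 * 1 : ℕ) : ℤ) - 2) / 2 = 0 := by norm_num
        have i2 : (((2 * 1 : ℕ) : ℤ) - 1) / 2 = 0 := by norm_num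
        have i3 : (((2 * 1 : ℕ) : ℤ) - 3) / 2 = -1 := by norm_num
        have i4 : (((2 * 1 : ℕ) : ℤ)) / 2 = 1 := by norm_num
        rw [i1, i2, i3, i4, Polynomial.Chebyshev.S_zero, Polynomial.Chebyshev.S_neg_one,
          Polynomial.Chebyshev.S_one, Module.End.one_apply]
        simp only [Polynomial.eval_one, Polynomial.eval_zero, Polynomial.eval_X]
        module
      · have hk0 : (0 : ℝ) < k := by exact_mod_cast (by omega : 0 < k)
        have hk2 : (2 : ℝ) ≤ k := by exact_mod_cast hk
        have hθ' : θ = π / k := by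
          rw [hθ]; push_cast; field_simp
        have hs0 : 0 < sin θ := by
          refine sin_pos_of_pos_of_lt_pi (by rw [hθ']; positivity) ?_
          rw [hθ', div_lt_iff₀ hk0]
          nlinarith [pi_pos]
        have i1 : (((2 * k : ℕ) : ℤ) - 2) / 2 = (k : ℤ) - 1 := by omega
        have i2 : (((2 * k : ℕ) : ℤ) - 1) / 2 = (k : ℤ) - 1 := by omega
        have e5 : (Polynomial.Chebyshev.S ℝ ((k : ℤ) - 1)).eval (2 * cos θ) = 0 := by
          have h := RF.Sev ((k : ℤ) - 1) θ
          have h6 : (((k : ℤ) - 1 : ℤ) + 1 : ℝ) * θ = π := by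
            rw [hθ']; push_cast; field_simp; ring
          rw [h6, sin_pi] at h
          exact (mul_eq_zero.1 h).resolve_right hs0.ne'
        rw [i1, i2, e5, Module.End.one_apply]
        simp
    · have hk1 : 1 ≤ k := by omega
      have hk0 : (1 : ℝ) ≤ k := by exact_mod_cast hk1
      have hs0 : 0 < sin θ := by
        refine sin_pos_of_pos_of_lt_pi (by rw [hθ]; positivity) ?_
        rw [hθ]
        push_cast
        rw [← mul_div_assoc, div_lt_iff₀ (by positivity)]
        nlinarith [pi_pos]
      have i1 : (((2 * k + 1 : ℕ) : ℤ) - 2) / 2 = (k : ℤ) - 1 := by omega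
      have i2 : (((2 * k + 1 : ℕ) : ℤ) - 1) / 2 = (k : ℤ) := by omega
      have i3 : (((2 * k + 1 : ℕ) : ℤ) - 3) / 2 = (k : ℤ) - 1 := by omega
      have i4 : (((2 * k + 1 : ℕ) : ℤ)) / 2 = (k : ℤ) := by omega
      have e5 : (Polynomial.Chebyshev.S ℝ (k : ℤ)).eval (2 * cos θ) +
          (Polynomial.Chebyshev.S ℝ ((k : ℤ) - 1)).eval (2 * cos θ) = 0 := by
        have h := RF.Sev ((k : ℤ) - 1) θ
        have h' := RF.Sev (k : ℤ) θ
        have h6 : (((k : ℤ) - 1 : ℤ) + 1 : ℝ) * θ = k * θ := by
          push_cast; ring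
        have h7 : (((k : ℤ) : ℝ) + 1) * θ = 2 * π - k * θ := by
          rw [hθ]; push_cast; field_simp; ring
        rw [h6] at h
        rw [h7, sin_two_pi_sub] at h'
        have h8 : ((Polynomial.Chebyshev.S ℝ (k : ℤ)).eval (2 * cos θ) +
          (Polynomial.Chebyshev.S ℝ ((k : ℤ) - 1)).eval (2 * cos θ)) * sin θ = 0 := by
          rw [add_mul, h, h']; ring
        exact (mul_eq_zero.1 h8).resolve_right hs0.ne'
      rw [i1, i2, i3, i4, e5, Module.End.one_apply]
      simp

end Pool.BraidIndex.Cox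

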