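import Mathlib

set_option autoImplicit false

open Module

namespace Pool.BraidIndex.CReflCore

open Polynomial.Chebyshev

lemma S_eval (θ : ℝ) (k : ℤ) :
    (S ℝ k).eval (2 * Real.cos θ) * Real.sin θ = Real.sin ((k + 1) * θ) :=
  S_two_mul_real_cos θ k

section
variable {M : Type*} [AddCommGroup M] [Module ℝ M] {x y : M} {f g : Dual ℝ M}

lemma pow_apply_eq (hf : f x = 2) (hg : g y = 2) (m : ℕ) (hm : 2 ≤ m)
    (h1 : f y = -(2 * Real.cos (Real.pi / m))) (h2 : g x = -(2 * Real.cos (Real.pi / m))) (z : M) :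
    ((reflection hf * reflection hg) ^ m) z = z := by
  have hm0 : (0 : ℝ) < m := by exact_mod_cast (by omega : 0 < m)
  rcases Nat.eq_or_lt_of_le hm with h | h3
  · -- `m = 2`
    have hcos : Real.cos (Real.pi / m) = 0 := by rw [← h]; simp
    rw [hcos, mul_zero, neg_zero] at h1 h2
    rw [← h]
    simp only [pow_two, LinearEquiv.mul_apply, reflection_apply, map_sub, map_smul, h1, h2, hf, hg,
      smul_eq_mul, mul_zero, sub_zero]
    module
  · have ht : (2 * Real.cos (2 * Real.pi / m)) = f y * g x - 2 := by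
      rw [h1, h2, show 2 * Real.pi / (m : ℝ) = 2 * (Real.pi / m) by ring, Real.cos_two_mul]
      ring
    have hsin : Real.sin (2 * Real.pi / m) ≠ 0 := by
      apply ne_of_gt
      apply Real.sin_pos_of_pos_of_lt_pi
      · positivity
      · rw [div_lt_iff₀ hm0]
        have : (3 : ℝ) ≤ m := by exact_mod_cast h3
        nlinarith [Real.pi_pos]
    rw [reflection_mul_reflection_pow_apply hf hg m z (2 * Real.cos (2 * Real.pi / m)) ht]
    set A : ℤ → ℝ := fun k => (S ℝ k).eval (2 * Real.cos (2 * Real.pi / m)) with hA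
    have hAe : ∀ k : ℤ, A k * Real.sin (2 * Real.pi / m) = Real.sin ((k + 1) * (2 * Real.pi / m)) :=
      fun k => S_eval _ k
    obtain ⟨k, hk | hk⟩ : ∃ k : ℕ, m = 2 * k ∨ m = 2 * k + 1 := ⟨m / 2, by omega⟩
    · -- even
      have e1 : ((m : ℤ) - 2) / 2 = (k : ℤ) - 1 := by omega
      have e2 : ((m : ℤ) - 1) / 2 = (k : ℤ) - 1 := by omega
      have hz : A ((k : ℤ) - 1) = 0 := by
        have h4 := hAe ((k : ℤ) - 1)
        have h5 : (((k : ℤ) - 1 : ℤ) + 1 : ℝ) * (2 * Real.pi / m) = Real.pi := by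
          rw [hk]
          have : (k : ℝ) ≠ 0 := by
            have : k ≠ 0 := by omega
            exact_mod_cast this
          push_cast
          field_simp
          ring
        rw [h5, Real.sin_pi] at h4
        exact (mul_eq_zero.1 h4).resolve_right hsin
      show z + (A (((m : ℤ) - 2) / 2) * (A (((m : ℤ) - 1) / 2) + A (((m : ℤ) - 3) / 2))) • _ +
        (A (((m : ℤ) - 1) / 2) * (A ((m : ℤ) / 2) + A (((m : ℤ) - 2) / 2))) • _ = z
      rw [e1, e2, hz, zero_mul, zero_mul, zero_smul, zero_smul, add_zero, add_zero]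
    · -- odd
      have e1 : ((m : ℤ) - 2) / 2 = (k : ℤ) - 1 := by omega
      have e2 : ((m : ℤ) - 1) / 2 = (k : ℤ) := by omega
      have e3 : ((m : ℤ) - 3) / 2 = (k : ℤ) - 1 := by omega
      have e4 : (m : ℤ) / 2 = (k : ℤ) := by omega
      have hz : A (k : ℤ) + A ((k : ℤ) - 1) = 0 := by
        have h4 := hAe (k : ℤ)
        have h4' := hAe ((k : ℤ) - 1)
        have h5 : (((k : ℤ) : ℝ) + 1) * (2 * Real.pi / m) =
            2 * Real.pi - (((k : ℤ) - 1 : ℤ) + 1 : ℝ) * (2 * Real.pi / m) := by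
          rw [hk]
          have : (2 * (k : ℝ) + 1) ≠ 0 := by positivity
          push_cast
          field_simp
          ring
        rw [h5, Real.sin_two_pi_sub] at h4
        have h6 : (A (k : ℤ) + A ((k : ℤ) - 1)) * Real.sin (2 * Real.pi / m) = 0 := by
          rw [add_mul, h4, h4']
          ring
        exact (mul_eq_zero.1 h6).resolve_right hsin
      show z + (A (((m : ℤ) - 2) / 2) * (A (((m : ℤ) - 1) / 2) + A (((m : ℤ) - 3) / 2))) • _ +
        (A (((m : ℤ) - 1) / 2) * (A ((m : ℤ) / 2) + A (((m : ℤ) - 2) / 2))) • _ = z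
      rw [e1, e2, e3, e4, hz, mul_zero, mul_zero, zero_smul, zero_smul, add_zero, add_zero]

lemma end_pow_apply (e1 e2 : M ≃ₗ[ℝ] M) (m : ℕ) (z : M) :
    ((((e1 : M →ₗ[ℝ] M) : Module.End ℝ M) * ((e2 : M →ₗ[ℝ] M) : Module.End ℝ M)) ^ m) z =
      ((e1 * e2) ^ m) z := by
  induction m generalizing z with
  | zero => simp
  | succ m ih =>
    rw [pow_succ, pow_succ, Module.End.mul_apply, LinearEquiv.mul_apply, ← ih]
    rfl

end

/-- the geometric representation of a Coxeter matrix -/
theorem refl : ∀ (ι : Type) [Fintype ι] [DecidableEq ι] (m : ι → ι → ℕ),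
    (∀ a b, a ≠ b → 2 ≤ m a b ∧ m a b = m b a) → ∃ s : ι → Module.End ℝ (ι → ℝ),
    (∀ a, s a * s a = 1) ∧ (∀ a v, ∃ c : ℝ, v - s a v = c • (Pi.single a 1 : ι → ℝ)) ∧
    (∀ a, s a (Pi.single a 1) = -Pi.single a 1) ∧ ∀ a b, a ≠ b → (s a * s b) ^ (m a b) = 1 := by
  intro ι _ _ m hm
  set B : ι → ι → ℝ := fun a b => if a = b then 2 else -(2 * Real.cos (Real.pi / m a b)) with hB
  set f : ι → Dual ℝ (ι → ℝ) := fun a => ∑ b, B a b • LinearMap.proj b with hf
  have hfe : ∀ a b, f a (Pi.single b 1) = B a b := by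
    intro a b
    simp only [hf, LinearMap.sum_apply, LinearMap.smul_apply, LinearMap.proj_apply, smul_eq_mul]
    rw [Finset.sum_eq_single b]
    · simp
    · intro c _ hc
      simp [Pi.single_eq_of_ne hc]
    · simp
  have hfa : ∀ a, f a (Pi.single a 1) = 2 := fun a => by rw [hfe, hB]; simp
  refine ⟨fun a => ((reflection (hfa a) : (ι → ℝ) ≃ₗ[ℝ] (ι → ℝ)) : (ι → ℝ) →ₗ[ℝ] (ι → ℝ)),
    fun a => ?_, fun a v => ⟨f a v, ?_⟩, fun a => ?_, fun a b hab => ?_⟩
  · refine LinearMap.ext (fun z => ?_)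
    show reflection (hfa a) (reflection (hfa a) z) = z
    exact involutive_reflection (hfa a) z
  · show v - reflection (hfa a) v = _
    rw [reflection_apply]
    abel
  · show reflection (hfa a) (Pi.single a 1) = _
    rw [reflection_apply, hfa]
    module
  · refine LinearMap.ext (fun z => ?_)
    rw [end_pow_apply]
    have hba : m b a = m a b := (hm a b hab).2.symm
    exact pow_apply_eq (hfa a) (hfa b) (m a b) (hm a b hab).1
      (by rw [hfe, hB]; simp [hab])
      (by rw [hfe, hB]; simp [hab.symm, hba]) z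

end Pool.BraidIndex.CReflCore
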