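import Pool.Agent.Work.MP_9d4fac_cox.Braid
import Pool.Agent.Work.MP_9d4fac_gt.S_bdd

set_option autoImplicit false

namespace Pool.BraidIndex.Cox

open Pool.BraidIndex

instance finite_cls (D : List Piece) (X : Finset ℕ) : Finite (Cls D X) := Quotient.finite _

theorem tw_same {Q L : Type} [SemilatticeSup L] [OrderBot L] (K : Kei Q L) (a : Q) (r : ℕ) :
    (tw K)^[r] (a, a) = (a, a) := by
  induction r with
  | zero => rfl
  | succ r ih =>
    rw [Function.iterate_succ_apply]
    have : tw K (a, a) = (a, a) := by simp [tw, K.idem]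
    rw [this, ih]

theorem rowsP_mono {X : Finset ℕ} {P P' : ℕ → ℕ → ℕ → Prop} {t : ℕ} {B : List Piece} (h : RowsP X P t B)
    (A : List Piece) (D : List Piece) (hD : D = A ++ B) (hA : A.length = t)
    (hP : ∀ t i r s, (∀ k < r, D[t + k]? = some (.cross s, i)) → P t i r → P' t i r) :
    RowsP X P' t B := by
  induction h generalizing A with
  | nil t => exact .nil t
  | cup t i o B _ ih => exact .cup t i o B (ih (A ++ [(.cup o, i)]) (by simp [hD]) (by simp [hA]))
  | cap t i B _ ih => exact .cap t i B (ih (A ++ [(.cap, i)]) (by simp [hD]) (by simp [hA]))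
  | single t i s B ht _ ih => exact .single t i s B ht (ih (A ++ [(.cross s, i)]) (by simp [hD]) (by simp [hA]))
  | row t i r s B hp _ ih =>
    refine .row t i r s B (hP t i r s ?_ hp)
      (ih (A ++ List.replicate r (.cross s, i)) (by simp [hD]) (by simp [hA]))
    intro k hk
    rw [hD, ← hA, List.getElem?_append_right (by omega), List.getElem?_append_left (by simp; omega)]
    rw [List.getElem?_replicate, if_pos (by omega)]

theorem final (hisot : T_isotopic) (hlower : T_lower) (hrefl : T_refl) (hkei : T_kei)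
    (D : List Piece) (hD : IsDiagram D) (X : Finset ℕ) (m : Cls D X → Cls D X → ℕ)
    (hm : ∀ a b, a ≠ b → 2 ≤ m a b ∧ m a b = m b a) (hrows : RowsM D X m 0 D)
    (hpar : ∀ t s i, D[t]? = some (.cross s, i) → t ∉ X → Par D t i)
    (D' : List Piece) (h : Isotopic D D') : Nat.card (Cls D X) ≤ cups D' := by
  classical
  haveI : Fintype (Cls D X) := Fintype.ofFinite _
  rcases isEmpty_or_nonempty (Cls D X) with hE | ⟨⟨c0⟩⟩
  · rw [Nat.card_of_isEmpty]; exact Nat.zero_le _
  obtain ⟨s, h1, h2, h3, h4⟩ := hrefl (Cls D X) m hm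
  obtain ⟨Q, K, c, k1, k2, k3⟩ := hkei (Cls D X) m s h1 h2 h3 h4
  -- the colouring
  let γ : ℕ × ℕ → Cls D X := fun q => if hq : InR D q then cls X ⟨q, hq⟩ else c0
  have γeq : ∀ q (hq : InR D q), γ q = cls X ⟨q, hq⟩ := fun q hq => dif_pos hq
  have γsm : ∀ a b, InR D a → InR D b → Smooth D a b → γ a = γ b := by
    intro a b ha hb hab
    rw [γeq a ha, γeq b hb]
    have : (Quotient.mk (circleSetoid D) ⟨a, ha⟩ : Circle D) = Quotient.mk (circleSetoid D) ⟨b, hb⟩ :=
      Quotient.sound (Relation.EqvGen.rel _ _ hab)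
    simp only [cls]
    exact congrArg (Quotient.mk (clsSetoid D X)) this
  have γin : ∀ t s i, D[t]? = some (.cross s, i) → InR D (t, i) ∧ InR D (t, i + 1) ∧ InR D (t + 1, i) ∧
      InR D (t + 1, i + 1) := by
    intro t s i ht
    obtain ⟨g0, r, g1, g2⟩ := Lower.len_step hD ht
    simp only [Kind.ar] at g1
    simp only [Kind.oar] at g2
    exact ⟨⟨by simp only; omega, by simp only; omega⟩, ⟨by simp only; omega, by simp only; omega⟩,
      ⟨by simp only; omega, by simp only; omega⟩, ⟨by simp only; omega, by simp only; omega⟩⟩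
  have γX : ∀ t ∈ X, ∀ s i, D[t]? = some (.cross s, i) → γ (t, i) = γ (t, i + 1) ∧ γ (t, i) = γ (t + 1, i) := by
    intro t ht s i hti
    obtain ⟨g0, g1, g2, g3⟩ := γin t s i hti
    by_cases hp : Par D t i
    · have e1 : γ (t, i) = γ (t, i + 1) := by
        rw [γeq _ g0, γeq _ g1]
        exact Quotient.sound (Relation.EqvGen.rel _ _ ⟨t, ht, s, i, ⟨_, g0⟩, ⟨_, g1⟩, hti, rfl, by rw [if_pos hp],
          Or.inl ⟨rfl, rfl⟩⟩)
      exact ⟨e1, γsm _ _ g0 g2 (Smooth.par0 t i s hti hp)⟩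
    · have e1 : γ (t, i) = γ (t + 1, i) := by
        rw [γeq _ g0, γeq _ g2]
        exact Quotient.sound (Relation.EqvGen.rel _ _ ⟨t, ht, s, i, ⟨_, g0⟩, ⟨_, g2⟩, hti, rfl, by rw [if_neg hp],
          Or.inl ⟨rfl, rfl⟩⟩)
      exact ⟨γsm _ _ g0 g1 (Smooth.anti0 t i s hti hp), e1⟩
  obtain ⟨H, hH, hH2⟩ := hlower Q _ K D X (fun q => c (γ q)) hD
    (fun a b ha hb hab => congrArg c (γsm a b ha hb hab))
    (fun t ht s i hti => ⟨congrArg c (γX t ht s i hti).1, congrArg c (γX t ht s i hti).2⟩) hpar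
    (rowsP_mono hrows [] D rfl rfl (by
      intro t i r s hk hP
      rcases Nat.eq_zero_or_pos r with rfl | hr
      · rfl
      obtain ⟨g0, g1, -, -⟩ := γin t s i (hk 0 hr)
      by_cases he : γ (t, i) = γ (t, i + 1)
      · simp only [← he]
        exact tw_same K _ r
      · refine k1 _ _ r he ?_
        have := hP ⟨_, g0⟩ ⟨_, g1⟩ rfl rfl (by rw [← γeq, ← γeq]; exact he)
        rw [γeq _ g0, γeq _ g1]
        exact this))
  rw [hisot Q _ K D _ h] at hH
  obtain ⟨cs, hcs, hle⟩ := sp_cups K D' _ H hH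
  rw [ls_nil, bot_sup_eq] at hle
  have htop : H = ⊤ := by
    refine k3 H fun a => ?_
    obtain ⟨q, rfl⟩ := Quotient.exists_rep a
    obtain ⟨x, rfl⟩ := Quotient.exists_rep q
    have := hH2 x.1 x.2
    simp only [γeq x.1 x.2] at this
    exact this
  have hle2 : ls K cs = ⊤ := by rw [htop] at hle; exact top_le_iff.1 hle
  have h5 := k2 cs
  rw [hle2, finrank_top, Module.finrank_fintype_fun_eq_card, hcs] at h5
  rwa [Nat.card_eq_fintype_card]

end Pool.BraidIndex.Cox
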