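import Pool.Agent.Work.MP_9d4fac_gt.Split
import Pool.Agent.Work.MP_9d4fac_gt.Glue

/-!
# Coxeter version: colourings by reflections

Colours are elements of a kei `Q` with a support `U` in a lattice. `Sp K D v` is the set of the suprema of the supports of all
colours of the colourings of the list `D` of pieces which start with the colours `v` and end without strands.
-/

set_option autoImplicit false

namespace Pool.BraidIndex.Cox

open Pool.BraidIndex

/-- colours with supports in a lattice; `op a b` is the colour of the under strand `b` behind the over strand `a` -/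
structure Kei (Q L : Type) [SemilatticeSup L] [OrderBot L] where
  op : Q → Q → Q
  U : Q → L
  idem : ∀ a, op a a = a
  invo : ∀ a b, op a (op a b) = b
  dist : ∀ a b c, op a (op b c) = op (op a b) (op a c)
  sub : ∀ a b, U (op a b) ≤ U a ⊔ U b

section
variable {Q L : Type} [SemilatticeSup L] [OrderBot L] (K : Kei Q L)

/-- the possible colours of the strands which leave a piece -/
def cols : Kind → List Q → Set (List Q)
  | .cup _, [] => {u | ∃ c, u = [c, c]}
  | .cap, [a, b] => {u | a = b ∧ u = []}
  | .cross s, [a, b] => {if s then [K.op a b, a] else [b, K.op b a]}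
  | _, _ => ∅

/-- the possible colours of all strands after a piece -/
def acts (q : Piece) (v : List Q) : Set (List Q) :=
  {w | ∃ l u r u', l.length = q.2 ∧ u.length = q.1.ar ∧ v = l ++ u ++ r ∧ u' ∈ cols K q.1 u ∧ w = l ++ u' ++ r}

/-- the supremum of the supports of a list of colours -/
def ls (v : List Q) : L := (v.map K.U).foldr (· ⊔ ·) ⊥

/-- the suprema of the supports of all colours of the colourings of `D` which start with `v` -/
def Sp : List Piece → List Q → Set L
  | [], v => {H | v = [] ∧ H = ⊥}
  | q :: D, v => {H | ∃ v' ∈ acts K q v, ∃ H' ∈ Sp D v', H = ls K v ⊔ H'}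

/-- one crossing of two parallel strands of a row -/
def tw (x : Q × Q) : Q × Q := (K.op x.1 x.2, x.1)

end

/-- LOC: local moves (use: `H ∈ Sp K B w → ls K w ≤ H`, and the colours between the two pieces have `ls` below
`ls K v ⊔ ls K w`, `w` = colours behind the move) -/
def T_local : Prop := ∀ (Q L : Type) [SemilatticeSup L] [OrderBot L] (K : Kei Q L) (X Y B : List Piece) (os : List Bool),
  Local X Y → (runO (X ++ B) os).isSome → (runO (Y ++ B) os).isSome → ∀ v : List Q, v.length = os.length →
    Sp K (X ++ B) v = Sp K (Y ++ B) v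

/-- ISO: moves in context -/
def T_isotopic : Prop := ∀ (Q L : Type) [SemilatticeSup L] [OrderBot L] (K : Kei Q L) (D D' : List Piece),
  Isotopic D D' → Sp K D [] = Sp K D' []

/-- BRA: every colour of a closed braid is generated by the colours of the `n` cups (general `D`: as many colours as cups) -/
def T_braid : Prop := ∀ (Q L : Type) [SemilatticeSup L] [OrderBot L] (K : Kei Q L) (n : ℕ) (w : List (ℕ × Bool)) (H : L),
  H ∈ Sp K (braidClosure n w) [] → ∃ cs : List Q, cs.length = n ∧ H ≤ ls K cs

/-- ROW: a row which acts trivially on `(a, b)` (the supports of all colours in the row are below `U a ⊔ U b`) -/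
def T_row : Prop := ∀ (Q L : Type) [SemilatticeSup L] [OrderBot L] (K : Kei Q L) (i r : ℕ) (s : Bool) (B : List Piece)
  (l t : List Q) (a b : Q) (H : L), l.length = i → (tw K)^[r] (a, b) = (a, b) → H ∈ Sp K B (l ++ [a, b] ++ t) →
    H ∈ Sp K (List.replicate r (.cross s, i) ++ B) (l ++ [a, b] ++ t)

/-- The crossings of the list (which starts at level `t`) which are not in `X` come in rows of consecutive equal crossings; for
a row of `r` crossings at level `t` with `i` strands on its left `P t i r` holds. -/
inductive RowsP (X : Finset ℕ) (P : ℕ → ℕ → ℕ → Prop) : ℕ → List Piece → Prop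
  | nil (t : ℕ) : RowsP X P t []
  | cup (t i : ℕ) (o : Bool) (D : List Piece) : RowsP X P (t + 1) D → RowsP X P t ((.cup o, i) :: D)
  | cap (t i : ℕ) (D : List Piece) : RowsP X P (t + 1) D → RowsP X P t ((.cap, i) :: D)
  | single (t i : ℕ) (s : Bool) (D : List Piece) : t ∈ X → RowsP X P (t + 1) D → RowsP X P t ((.cross s, i) :: D)
  | row (t i r : ℕ) (s : Bool) (D : List Piece) : P t i r → RowsP X P (t + r) D →
      RowsP X P t (List.replicate r (.cross s, i) ++ D)

/-- LOW: a function on the points which is constant on the Seifert circles, agrees at the crossings in `X` and is compatible with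
the rows gives a colouring of `D` -/
def T_lower : Prop := ∀ (Q L : Type) [SemilatticeSup L] [OrderBot L] (K : Kei Q L) (D : List Piece) (X : Finset ℕ)
  (c : ℕ × ℕ → Q), IsDiagram D → (∀ a b, InR D a → InR D b → Smooth D a b → c a = c b) →
  (∀ t ∈ X, ∀ s i, D[t]? = some (.cross s, i) → c (t, i) = c (t, i + 1) ∧ c (t, i) = c (t + 1, i)) →
  (∀ t s i, D[t]? = some (.cross s, i) → t ∉ X → Par D t i) →
  RowsP X (fun t i r => (tw K)^[r] (c (t, i), c (t, i + 1)) = (c (t, i), c (t, i + 1))) 0 D →
  ∃ H ∈ Sp K D [], ∀ q, InR D q → K.U (c q) ≤ H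

/-- REF: the geometric representation of a Coxeter matrix, `s a = Module.reflection` for `x = e_a`,
`f v = 2 B(e_a, v)`, `B(e_a, e_a) = 1`, `B(e_a, e_b) = - cos (π / m a b)`; the last part with
`Module.reflection_mul_reflection_pow_apply` (Chebyshev `S` at `t = 2 cos (2 π / m)`) or by hand -/
def T_refl : Prop := ∀ (ι : Type) [Fintype ι] [DecidableEq ι] (m : ι → ι → ℕ),
  (∀ a b, a ≠ b → 2 ≤ m a b ∧ m a b = m b a) → ∃ s : ι → Module.End ℝ (ι → ℝ),
    (∀ a, s a * s a = 1) ∧ (∀ a v, ∃ c : ℝ, v - s a v = c • (Pi.single a 1 : ι → ℝ)) ∧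
    (∀ a, s a (Pi.single a 1) = -Pi.single a 1) ∧ ∀ a b, a ≠ b → (s a * s b) ^ (m a b) = 1

/-- KEI: `Q = {T : End V // T * T = 1 ∧ finrank (range (1 - T)) ≤ 1}`, `op A B = A * B * A`, `U A = range (1 - A)`; for
`a * a = b * b = 1` one has `tw^[k] (a, b) = ((a b)^k a, (a b)^k b)` -/
def T_kei : Prop := ∀ (ι : Type) [Fintype ι] [DecidableEq ι] (m : ι → ι → ℕ) (s : ι → Module.End ℝ (ι → ℝ)),
    (∀ a, s a * s a = 1) → (∀ a v, ∃ c : ℝ, v - s a v = c • (Pi.single a 1 : ι → ℝ)) →
    (∀ a, s a (Pi.single a 1) = -Pi.single a 1) → (∀ a b, a ≠ b → (s a * s b) ^ (m a b) = 1) →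
    ∃ (Q : Type) (K : Kei Q (Submodule ℝ (ι → ℝ))) (c : ι → Q),
      (∀ a b r, a ≠ b → m a b ∣ r → (tw K)^[r] (c a, c b) = (c a, c b)) ∧
      (∀ cs : List Q, Module.finrank ℝ (ls K cs) ≤ cs.length) ∧
      ∀ H : Submodule ℝ (ι → ℝ), (∀ a, K.U (c a) ≤ H) → H = ⊤

/-- circles joined by a crossing in `X` are identified -/
def clsSetoid (D : List Piece) (X : Finset ℕ) : Setoid (Circle D) :=
  Relation.EqvGen.setoid fun a b => ∃ t ∈ X, Joins D t a b

/-- the classes of the Seifert circles modulo the crossings in `X` -/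
def Cls (D : List Piece) (X : Finset ℕ) : Type := Quotient (clsSetoid D X)

/-- the class of a point -/
def cls {D : List Piece} (X : Finset ℕ) (x : Point D) : Cls D X := Quotient.mk (clsSetoid D X) (Quotient.mk _ x)

/-- CLS: every crossing in `X` reduces the number of classes by at most one (`t` determines the two circles which it joins; use
`p_count` with `p = 2`) -/
def T_cls : Prop := ∀ (D : List Piece) (X : Finset ℕ), circles D ≤ X.card + Nat.card (Cls D X)

/-- the rows between different classes `a`, `b` of circles have lengths divisible by `m a b` -/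
def RowsM (D : List Piece) (X : Finset ℕ) (m : Cls D X → Cls D X → ℕ) : ℕ → List Piece → Prop :=
  RowsP X fun t i r => ∀ x y : Point D, x.1 = (t, i) → y.1 = (t, i + 1) → cls X x ≠ cls X y → m (cls X x) (cls X y) ∣ r

end Pool.BraidIndex.Cox
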