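import Pool.Agent.Work.MP_9d4fac_cox.Interface

set_option autoImplicit false

namespace Pool.BraidIndex.Cox

open Pool.BraidIndex

section
variable {Q L : Type} [SemilatticeSup L] [OrderBot L] (K : Kei Q L)

theorem iso_cols_len {k : Kind} {u u' : List Q} (hu : u.length = k.ar) (h : u' ∈ cols K k u) :
    u'.length = k.oar := by
  cases k with
  | cup o =>
    have : u = [] := List.length_eq_zero_iff.1 hu
    subst this
    obtain ⟨c, rfl⟩ := h
    rfl
  | cap =>
    obtain ⟨a, b, rfl⟩ := len2 hu
    obtain ⟨-, rfl⟩ := h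
    rfl
  | cross s =>
    obtain ⟨a, b, rfl⟩ := len2 hu
    have h1 : u' = if s then [K.op a b, a] else [b, K.op b a] := h
    subst h1
    split_ifs <;> rfl

theorem iso_acts_len {k : Kind} {i : ℕ} {v w : List Q} (h : w ∈ acts K (k, i) v) :
    i + k.ar ≤ v.length ∧ w.length + k.ar = v.length + k.oar := by
  obtain ⟨l, u, r, u', hl, hu, rfl, hu', rfl⟩ := h
  have h1 : u'.length = k.oar := iso_cols_len K hu hu'
  simp only at hl hu
  simp only [List.length_append]
  omega

/-- moves under a common beginning -/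
theorem iso_context (hlocal : T_local) {X Y B : List Piece} (h : Local X Y) (A : List Piece) :
    ∀ os : List Bool, (runO (A ++ (X ++ B)) os).isSome → (runO (A ++ (Y ++ B)) os).isSome →
      ∀ v : List Q, v.length = os.length → Sp K (A ++ (X ++ B)) v = Sp K (A ++ (Y ++ B)) v := by
  induction A with
  | nil =>
    intro os h1 h2 v hv
    exact hlocal Q L K X Y B os h h1 h2 v hv
  | cons q A ih =>
    intro os h1 h2 v hv
    obtain ⟨k, i⟩ := q
    obtain ⟨w, hw, hw1⟩ := run_cons h1
    obtain ⟨w', hw', hw2⟩ := run_cons h2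
    have e : w' = w := by
      rw [hw] at hw'
      exact (Option.some.inj hw').symm
    subst e
    obtain ⟨a1, a2⟩ := step_some hw
    have key : ∀ v' ∈ acts K (k, i) v, Sp K (A ++ (X ++ B)) v' = Sp K (A ++ (Y ++ B)) v' := by
      intro v' hv'
      obtain ⟨b1, b2⟩ := iso_acts_len K hv'
      exact ih w' hw1 hw2 v' (by omega)
    ext H
    rw [List.cons_append, List.cons_append]
    constructor
    · rintro ⟨v', hv', H', hH', rfl⟩
      exact ⟨v', hv', H', by rw [← key v' hv']; exact hH', rfl⟩
    · rintro ⟨v', hv', H', hH', rfl⟩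
      exact ⟨v', hv', H', by rw [key v' hv']; exact hH', rfl⟩

end

theorem c_isotopic (hlocal : T_local) : T_isotopic := by
  intro Q L _ _ K D D' h
  induction h with
  | rel D D' h =>
    obtain ⟨h1, h2, A, X, Y, B, hl, rfl, rfl⟩ := h
    rw [List.append_assoc] at h1 h2 ⊢
    rw [List.append_assoc]
    refine iso_context K hlocal hl A [] ?_ ?_ [] rfl
    · rw [IsDiagram] at h1; rw [h1]; rfl
    · rw [IsDiagram] at h2; rw [h2]; rfl
  | refl D => rfl
  | symm D D' _ ih => exact ih.symm
  | trans D D' D'' _ _ ih1 ih2 => exact ih1.trans ih2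

end Pool.BraidIndex.Cox
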