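import Pool.Agent.Work.MP_9d4fac_cox.Isotopic
import Pool.Agent.Work.MP_9d4fac_gt.S_localB

set_option autoImplicit false

namespace Pool.BraidIndex.Cox

open Pool.BraidIndex

section
variable {Q L : Type} [SemilatticeSup L] [OrderBot L] (K : Kei Q L)

theorem lb_ls_nil : ls K [] = ⊥ := rfl

theorem lb_ls_cons (a : Q) (v : List Q) : ls K (a :: v) = K.U a ⊔ ls K v := rfl

theorem lb_ls_append (v w : List Q) : ls K (v ++ w) = ls K v ⊔ ls K w := by
  induction v with
  | nil => rw [List.nil_append, lb_ls_nil, bot_sup_eq]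
  | cons a v ih => rw [List.cons_append, lb_ls_cons, lb_ls_cons, ih, sup_assoc]

theorem lb_ge {B : List Piece} {w : List Q} {H : L} (h : H ∈ Sp K B w) : ls K w ≤ H := by
  cases B with
  | nil =>
    obtain ⟨rfl, rfl⟩ := h
    exact le_rfl
  | cons q B =>
    obtain ⟨v', -, H', -, rfl⟩ := h
    exact le_sup_left

theorem lb_uniq {α : Type} {l l' u u' r r' : List α} (h1 : l.length = l'.length) (h2 : u.length = u'.length)
    (h : l ++ u ++ r = l' ++ u' ++ r') : l = l' ∧ u = u' ∧ r = r' := by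
  rw [List.append_assoc, List.append_assoc] at h
  obtain ⟨h3, h4⟩ := List.append_inj h h1
  obtain ⟨h5, h6⟩ := List.append_inj h4 h2
  exact ⟨h3, h5, h6⟩

theorem lb_split {k : Kind} {l u r : List Q} {D : List Piece} (h : u.length = k.ar) {H : L} :
    H ∈ Sp K ((k, l.length) :: D) (l ++ u ++ r) ↔
      ∃ u' ∈ cols K k u, ∃ H' ∈ Sp K D (l ++ u' ++ r), H = ls K (l ++ u ++ r) ⊔ H' := by
  constructor
  · rintro ⟨v', ⟨l1, u1, r1, u', hl, hu, e, hu', rfl⟩, H', hH', rfl⟩
    obtain ⟨rfl, rfl, rfl⟩ := lb_uniq hl.symm (h.trans hu.symm) e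
    exact ⟨u', hu', H', hH', rfl⟩
  · rintro ⟨u', hu', H', hH', rfl⟩
    exact ⟨l ++ u' ++ r, ⟨l, u, r, u', rfl, h, rfl, hu', rfl⟩, H', hH', rfl⟩

theorem lb_cup (o : Bool) (l r : List Q) (D : List Piece) (H : L) :
    H ∈ Sp K ((.cup o, l.length) :: D) (l ++ r) ↔ ∃ c, H ∈ Sp K D (l ++ c :: c :: r) := by
  have h := lb_split K (k := .cup o) (l := l) (u := []) (r := r) (D := D) rfl (H := H)
  rw [List.append_nil] at h
  rw [h]
  have hs : ∀ c, ∀ H' ∈ Sp K D (l ++ c :: c :: r), ls K (l ++ r) ⊔ H' = H' := by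
    intro c H' hH'
    refine sup_eq_right.2 (le_trans ?_ (lb_ge K hH'))
    rw [lb_ls_append, lb_ls_append, lb_ls_cons, lb_ls_cons]
    exact sup_le_sup_left (le_sup_right.trans le_sup_right) _
  have e : ∀ c : Q, l ++ [c, c] ++ r = l ++ c :: c :: r := by intro c; simp
  constructor
  · rintro ⟨u', ⟨c, rfl⟩, H', hH', rfl⟩
    rw [e] at hH'
    refine ⟨c, ?_⟩
    rw [hs c H' hH']
    exact hH'
  · rintro ⟨c, hc⟩
    exact ⟨[c, c], ⟨c, rfl⟩, H, by rw [e]; exact hc, (hs c H hc).symm⟩

theorem lb_cap (l r : List Q) (a b : Q) (D : List Piece) (H : L) :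
    H ∈ Sp K ((.cap, l.length) :: D) (l ++ a :: b :: r) ↔
      a = b ∧ ∃ H' ∈ Sp K D (l ++ r), H = K.U a ⊔ H' := by
  have h := lb_split K (k := .cap) (l := l) (u := [a, b]) (r := r) (D := D) rfl (H := H)
  have e : l ++ [a, b] ++ r = l ++ a :: b :: r := by simp
  rw [e] at h
  rw [h]
  have hs : ∀ H' ∈ Sp K D (l ++ r), ls K (l ++ a :: a :: r) ⊔ H' = K.U a ⊔ H' := by
    intro H' hH'
    have h1 := lb_ge K hH'
    rw [lb_ls_append] at h1
    rw [lb_ls_append, lb_ls_cons, lb_ls_cons]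
    refine le_antisymm (sup_le (sup_le ?_ (sup_le le_sup_left (sup_le le_sup_left ?_))) le_sup_right)
      (sup_le ?_ le_sup_right)
    · exact (le_sup_left.trans h1).trans le_sup_right
    · exact (le_sup_right.trans h1).trans le_sup_right
    · exact le_sup_left.trans (le_sup_right.trans le_sup_left)
  constructor
  · rintro ⟨u', ⟨rfl, rfl⟩, H', hH', rfl⟩
    rw [List.append_nil] at hH'
    exact ⟨rfl, H', hH', hs H' hH'⟩
  · rintro ⟨rfl, H', hH', rfl⟩
    exact ⟨[], ⟨rfl, rfl⟩, H', by rw [List.append_nil]; exact hH', (hs H' hH').symm⟩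

theorem lb_crossT (l r : List Q) (a b : Q) (D : List Piece) :
    Sp K ((.cross true, l.length) :: D) (l ++ a :: b :: r) = Sp K D (l ++ K.op a b :: a :: r) := by
  ext H
  have h := lb_split K (k := .cross true) (l := l) (u := [a, b]) (r := r) (D := D) rfl (H := H)
  have e : ∀ x y : Q, l ++ [x, y] ++ r = l ++ x :: y :: r := by intro x y; simp
  rw [e] at h
  rw [h]
  have hs : ∀ H' ∈ Sp K D (l ++ K.op a b :: a :: r), ls K (l ++ a :: b :: r) ⊔ H' = H' := by
    intro H' hH'
    refine sup_eq_right.2 (le_trans ?_ (lb_ge K hH'))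
    rw [lb_ls_append, lb_ls_append, lb_ls_cons, lb_ls_cons, lb_ls_cons, lb_ls_cons]
    refine sup_le_sup_left (sup_le (le_sup_left.trans le_sup_right) (sup_le ?_ (le_sup_right.trans le_sup_right))) _
    have h1 := K.sub a (K.op a b)
    rw [K.invo] at h1
    exact h1.trans (sup_le (le_sup_left.trans le_sup_right) le_sup_left)
  constructor
  · rintro ⟨u', hu', H', hH', rfl⟩
    have hu2 : u' = [K.op a b, a] := hu'
    subst hu2
    rw [e] at hH'
    rw [hs H' hH']
    exact hH'
  · intro hH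
    exact ⟨[K.op a b, a], rfl, H, by rw [e]; exact hH, (hs H hH).symm⟩

theorem lb_crossF (l r : List Q) (a b : Q) (D : List Piece) :
    Sp K ((.cross false, l.length) :: D) (l ++ a :: b :: r) = Sp K D (l ++ b :: K.op b a :: r) := by
  ext H
  have h := lb_split K (k := .cross false) (l := l) (u := [a, b]) (r := r) (D := D) rfl (H := H)
  have e : ∀ x y : Q, l ++ [x, y] ++ r = l ++ x :: y :: r := by intro x y; simp
  rw [e] at h
  rw [h]
  have hs : ∀ H' ∈ Sp K D (l ++ b :: K.op b a :: r), ls K (l ++ a :: b :: r) ⊔ H' = H' := by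
    intro H' hH'
    refine sup_eq_right.2 (le_trans ?_ (lb_ge K hH'))
    rw [lb_ls_append, lb_ls_append, lb_ls_cons, lb_ls_cons, lb_ls_cons, lb_ls_cons]
    refine sup_le_sup_left (sup_le ?_ (sup_le le_sup_left (le_sup_right.trans le_sup_right))) _
    have h1 := K.sub b (K.op b a)
    rw [K.invo] at h1
    exact h1.trans (sup_le le_sup_left (le_sup_left.trans le_sup_right))
  constructor
  · rintro ⟨u', hu', H', hH', rfl⟩
    have hu2 : u' = [b, K.op b a] := hu'
    subst hu2
    rw [e] at hH'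
    rw [hs H' hH']
    exact hH'
  · intro hH
    exact ⟨[b, K.op b a], rfl, H, by rw [e]; exact hH, (hs H hH).symm⟩

theorem lb_cup1 (o : Bool) (l r : List Q) (x : Q) (D : List Piece) (H : L) :
    H ∈ Sp K ((.cup o, l.length + 1) :: D) (l ++ x :: r) ↔ ∃ c, H ∈ Sp K D (l ++ x :: c :: c :: r) := by
  have h := lb_cup K o (l ++ [x]) r D H
  simpa using h

theorem lb_cap1 (l r : List Q) (x a b : Q) (D : List Piece) (H : L) :
    H ∈ Sp K ((.cap, l.length + 1) :: D) (l ++ x :: a :: b :: r) ↔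
      a = b ∧ ∃ H' ∈ Sp K D (l ++ x :: r), H = K.U a ⊔ H' := by
  have h := lb_cap K (l ++ [x]) r a b D H
  simpa using h

theorem lb_crossT1 (l r : List Q) (x a b : Q) (D : List Piece) :
    Sp K ((.cross true, l.length + 1) :: D) (l ++ x :: a :: b :: r) =
      Sp K D (l ++ x :: K.op a b :: a :: r) := by
  have h := lb_crossT K (l ++ [x]) r a b D
  simpa using h

theorem lb_crossF1 (l r : List Q) (x a b : Q) (D : List Piece) :
    Sp K ((.cross false, l.length + 1) :: D) (l ++ x :: a :: b :: r) =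
      Sp K D (l ++ x :: b :: K.op b a :: r) := by
  have h := lb_crossF K (l ++ [x]) r a b D
  simpa using h

end

open LB in
theorem c_localB2 : T_local := by
  intro Q L _ _ K X Y B os hXY hX hY v hv
  have hmid : ∀ (l r : List Q) (a : Q) (H' : L), H' ∈ Sp K B (l ++ a :: r) → K.U a ≤ H' := by
    intro l r a H' hH'
    refine le_trans ?_ (lb_ge K hH')
    rw [lb_ls_append, lb_ls_cons]
    exact le_sup_left.trans le_sup_right
  cases hXY with
  | far k1 k2 i d =>
    obtain ⟨f1, w1, s1, g1⟩ := fits hX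
    obtain ⟨f2, w2, s2, g2⟩ := fits g1
    have e1 := step_len s1
    simp only at f1 f2 e1
    have hlen : i + (k1.ar + d + k2.ar) ≤ v.length := by omega
    obtain ⟨l, u, r, rfl, hl, hu⟩ := dec3 v i _ hlen
    obtain ⟨u1, t1, t2, rfl, hu1, ht1⟩ := dec3 u 0 k1.ar (by omega)
    rw [List.length_eq_zero_iff] at hu1
    subst hu1
    obtain ⟨m, u2, t3, rfl, hm, hu2⟩ := dec3 t2 d k2.ar (by
      simp only [List.length_append, List.length_nil] at hu; omega)
    have ht3 : t3 = [] := by
      rw [← List.length_eq_zero_iff]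
      simp only [List.length_append, List.length_nil] at hu
      omega
    subst ht3
    subst hl
    have e0 : l ++ ([] ++ t1 ++ (m ++ u2 ++ [])) ++ r = l ++ t1 ++ (m ++ u2 ++ r) := by simp
    have e0' : l ++ t1 ++ (m ++ u2 ++ r) = l ++ t1 ++ m ++ u2 ++ r := by simp
    rw [e0]
    have hval : ∀ (u1' u2' : List Q) (H' : L), H' ∈ Sp K B (l ++ u1' ++ m ++ u2' ++ r) →
        ls K (l ++ t1 ++ (m ++ u2 ++ r)) ⊔ (ls K (l ++ u1' ++ (m ++ u2 ++ r)) ⊔ H') =
          ls K (l ++ t1 ++ (m ++ u2 ++ r)) ⊔ H' ∧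
        ls K (l ++ t1 ++ (m ++ u2 ++ r)) ⊔ (ls K (l ++ t1 ++ (m ++ u2' ++ r)) ⊔ H') =
          ls K (l ++ t1 ++ (m ++ u2 ++ r)) ⊔ H' := by
      intro u1' u2' H' hH'
      have h1 := lb_ge K hH'
      simp only [lb_ls_append] at h1 ⊢
      have a1 : ls K l ≤ H' := le_trans (le_sup_left.trans (le_sup_left.trans (le_sup_left.trans le_sup_left))) h1
      have a2 : ls K u1' ≤ H' := le_trans (le_sup_right.trans (le_sup_left.trans (le_sup_left.trans le_sup_left))) h1
      have a3 : ls K m ≤ H' := le_trans (le_sup_right.trans (le_sup_left.trans le_sup_left)) h1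
      have a4 : ls K u2' ≤ H' := le_trans (le_sup_right.trans le_sup_left) h1
      have a5 : ls K r ≤ H' := le_trans le_sup_right h1
      have b1 : ls K t1 ≤ ls K l ⊔ ls K t1 ⊔ (ls K m ⊔ ls K u2 ⊔ ls K r) := le_sup_right.trans le_sup_left
      have b2 : ls K u2 ≤ ls K l ⊔ ls K t1 ⊔ (ls K m ⊔ ls K u2 ⊔ ls K r) :=
        (le_sup_right.trans le_sup_left).trans le_sup_right
      constructor
      · refine le_antisymm (sup_le le_sup_left (sup_le ?_ le_sup_right)) (sup_le le_sup_left
          (le_sup_right.trans le_sup_right))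
        exact sup_le (sup_le (a1.trans le_sup_right) (a2.trans le_sup_right))
          (sup_le (sup_le (a3.trans le_sup_right) (b2.trans le_sup_left)) (a5.trans le_sup_right))
      · refine le_antisymm (sup_le le_sup_left (sup_le ?_ le_sup_right)) (sup_le le_sup_left
          (le_sup_right.trans le_sup_right))
        exact sup_le (sup_le (a1.trans le_sup_right) (b1.trans le_sup_left))
          (sup_le (sup_le (a3.trans le_sup_right) (a4.trans le_sup_right)) (a5.trans le_sup_right))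
    have eX : ∀ H, H ∈ Sp K ([(k1, l.length), (k2, l.length + k1.oar + d)] ++ B)
        (l ++ t1 ++ (m ++ u2 ++ r)) ↔ ∃ u1' ∈ cols K k1 t1, ∃ u2' ∈ cols K k2 u2,
          ∃ H' ∈ Sp K B (l ++ u1' ++ m ++ u2' ++ r), H = ls K (l ++ t1 ++ (m ++ u2 ++ r)) ⊔ H' := by
      intro H
      have h1 := lb_split K (k := k1) (l := l) (u := t1) (r := m ++ u2 ++ r)
        (D := (k2, l.length + k1.oar + d) :: B) ht1 (H := H)
      refine h1.trans ?_
      refine exists_congr fun u1' => and_congr_right fun hu1' => ?_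
      have e3 : (l ++ u1' ++ m).length = l.length + k1.oar + d := by
        simp only [List.length_append, iso_cols_len K ht1 hu1', hm]
      have e4 : l ++ u1' ++ (m ++ u2 ++ r) = l ++ u1' ++ m ++ u2 ++ r := by simp
      have h2 : ∀ H0, _ ↔ _ := fun H0 => lb_split K (k := k2) (l := l ++ u1' ++ m) (u := u2) (r := r) (D := B)
        hu2 (H := H0)
      rw [e3, ← e4] at h2
      constructor
      · rintro ⟨H0, hH0, rfl⟩
        obtain ⟨u2', hu2', H', hH', rfl⟩ := (h2 H0).1 hH0
        exact ⟨u2', hu2', H', hH', (hval u1' u2' H' hH').1⟩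
      · rintro ⟨u2', hu2', H', hH', rfl⟩
        exact ⟨_, (h2 _).2 ⟨u2', hu2', H', hH', rfl⟩, (hval u1' u2' H' hH').1.symm⟩
    have eY : ∀ H, H ∈ Sp K ([(k2, l.length + k1.ar + d), (k1, l.length)] ++ B)
        (l ++ t1 ++ (m ++ u2 ++ r)) ↔ ∃ u2' ∈ cols K k2 u2, ∃ u1' ∈ cols K k1 t1,
          ∃ H' ∈ Sp K B (l ++ u1' ++ m ++ u2' ++ r), H = ls K (l ++ t1 ++ (m ++ u2 ++ r)) ⊔ H' := by
      intro H
      have e3 : (l ++ t1 ++ m).length = l.length + k1.ar + d := by
        simp only [List.length_append, ht1, hm]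
      have h1 : ∀ H0, _ ↔ _ := fun H0 => lb_split K (k := k2) (l := l ++ t1 ++ m) (u := u2) (r := r)
        (D := (k1, l.length) :: B) hu2 (H := H0)
      rw [e3, ← e0'] at h1
      refine (h1 H).trans ?_
      refine exists_congr fun u2' => and_congr_right fun _ => ?_
      have e4 : l ++ t1 ++ m ++ u2' ++ r = l ++ t1 ++ (m ++ u2' ++ r) := by simp
      have e5 : ∀ u1' : List Q, l ++ u1' ++ (m ++ u2' ++ r) = l ++ u1' ++ m ++ u2' ++ r := by intro u1'; simp
      rw [e4]
      constructor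
      · rintro ⟨H0, hH0, rfl⟩
        obtain ⟨u1', hu1', H', hH', rfl⟩ := (lb_split K ht1).1 hH0
        rw [e5] at hH'
        exact ⟨u1', hu1', H', hH', (hval u1' u2' H' hH').2⟩
      · rintro ⟨u1', hu1', H', hH', rfl⟩
        refine ⟨_, (lb_split K ht1).2 ⟨u1', hu1', H', by rw [e5]; exact hH', rfl⟩,
          (hval u1' u2' H' hH').2.symm⟩
    ext H
    rw [eX, eY]
    constructor
    · rintro ⟨u1', h1, u2', h2, H', h3, h4⟩
      exact ⟨u2', h2, u1', h1, H', h3, h4⟩
    · rintro ⟨u2', h2, u1', h1, H', h3, h4⟩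
      exact ⟨u1', h1, u2', h2, H', h3, h4⟩
  | zigL o i =>
    obtain ⟨f1, w1, s1, g1⟩ := fits hX
    simp only [Kind.ar] at f1
    obtain ⟨l, a, r, rfl, rfl⟩ := dec1 v i (by omega)
    ext H
    show H ∈ Sp K ((.cup o, l.length + 1) :: (.cap, l.length) :: B) (l ++ a :: r) ↔ H ∈ Sp K B (l ++ a :: r)
    rw [lb_cup1]
    simp only [lb_cap]
    constructor
    · rintro ⟨c, rfl, H', hH', rfl⟩
      rw [sup_eq_right.2 (hmid l r _ H' hH')]
      exact hH'
    · intro hH
      exact ⟨a, rfl, H, hH, (sup_eq_right.2 (hmid l r _ H hH)).symm⟩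
  | zigR o i =>
    obtain ⟨f1, w1, s1, g1⟩ := fits hX
    obtain ⟨f2, w2, s2, g2⟩ := fits g1
    have e1 := step_len s1
    simp only [Kind.ar, Kind.oar] at f1 f2 e1
    obtain ⟨l, a, r, rfl, rfl⟩ := dec1 v i (by omega)
    ext H
    show H ∈ Sp K ((.cup o, l.length) :: (.cap, l.length + 1) :: B) (l ++ a :: r) ↔ H ∈ Sp K B (l ++ a :: r)
    rw [lb_cup]
    simp only [lb_cap1]
    constructor
    · rintro ⟨c, rfl, H', hH', rfl⟩
      rw [sup_eq_right.2 (hmid l r _ H' hH')]
      exact hH'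
    · intro hH
      exact ⟨a, rfl, H, hH, (sup_eq_right.2 (hmid l r _ H hH)).symm⟩
  | r1cup o s i =>
    obtain ⟨f1, w1, s1, g1⟩ := fits hX
    simp only [Kind.ar] at f1
    obtain ⟨l, u, r, rfl, hl, hu⟩ := dec3 v i 0 (by omega)
    rw [List.length_eq_zero_iff] at hu
    subst hu hl
    rw [List.append_nil]
    ext H
    show H ∈ Sp K ((.cup o, l.length) :: (.cross s, l.length) :: B) (l ++ r) ↔
      H ∈ Sp K ((.cup (!o), l.length) :: B) (l ++ r)
    rw [lb_cup, lb_cup]
    refine exists_congr fun c => ?_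
    cases s
    · rw [lb_crossF, K.idem]
    · rw [lb_crossT, K.idem]
  | r1cap s i =>
    obtain ⟨f1, w1, s1, g1⟩ := fits hX
    simp only [Kind.ar] at f1
    obtain ⟨l, a, b, r, rfl, rfl⟩ := dec2 v i (by omega)
    ext H
    show H ∈ Sp K ((.cross s, l.length) :: (.cap, l.length) :: B) (l ++ a :: b :: r) ↔
      H ∈ Sp K ((.cap, l.length) :: B) (l ++ a :: b :: r)
    cases s
    · rw [lb_crossF, lb_cap, lb_cap]
      have e2 : b = K.op b a ↔ a = b := by
        constructor
        · intro h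
          have h1 := K.invo b a
          rw [← h, K.idem] at h1
          exact h1.symm
        · rintro rfl
          rw [K.idem]
      rw [e2]
      constructor
      · rintro ⟨rfl, h⟩
        exact ⟨rfl, h⟩
      · rintro ⟨rfl, h⟩
        exact ⟨rfl, h⟩
    · rw [lb_crossT, lb_cap, lb_cap]
      have e1 : K.op a b = a ↔ a = b := by
        constructor
        · intro h
          have h1 := K.invo a b
          rw [h, K.idem] at h1
          exact h1
        · rintro rfl
          rw [K.idem]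
      rw [e1]
      constructor
      · rintro ⟨rfl, h⟩
        rw [K.idem] at h
        exact ⟨rfl, h⟩
      · rintro ⟨rfl, h⟩
        rw [K.idem]
        exact ⟨rfl, h⟩
  | r2 s i =>
    obtain ⟨f1, w1, s1, g1⟩ := fits hX
    simp only [Kind.ar] at f1
    obtain ⟨l, a, b, r, rfl, rfl⟩ := dec2 v i (by omega)
    show Sp K ((.cross s, l.length) :: (.cross (!s), l.length) :: B) (l ++ a :: b :: r) =
      Sp K B (l ++ a :: b :: r)
    cases s
    · rw [lb_crossF, Bool.not_false, lb_crossT, K.invo]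
    · rw [lb_crossT, Bool.not_true, lb_crossF, K.invo]
  | r3 s i =>
    obtain ⟨f1, w1, s1, g1⟩ := fits hX
    obtain ⟨f2, w2, s2, g2⟩ := fits g1
    have e1 := step_len s1
    simp only [Kind.ar, Kind.oar] at f1 f2 e1
    obtain ⟨l, a, b, c, r, rfl, rfl⟩ := dec33 v i (by omega)
    show Sp K ((.cross s, l.length) :: (.cross s, l.length + 1) :: (.cross s, l.length) :: B)
      (l ++ a :: b :: c :: r) =
      Sp K ((.cross s, l.length + 1) :: (.cross s, l.length) :: (.cross s, l.length + 1) :: B)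
      (l ++ a :: b :: c :: r)
    cases s
    · rw [lb_crossF, lb_crossF1, lb_crossF, lb_crossF1, lb_crossF, lb_crossF1, K.dist c b a]
    · rw [lb_crossT, lb_crossT1, lb_crossT, lb_crossT1, lb_crossT, lb_crossT1, K.dist a b c]
  | slideCup o s i =>
    obtain ⟨f1, w1, s1, g1⟩ := fits hX
    obtain ⟨f2, w2, s2, g2⟩ := fits g1
    have e1 := step_len s1
    simp only [Kind.ar, Kind.oar] at f1 f2 e1
    obtain ⟨l, a, r, rfl, rfl⟩ := dec1 v i (by omega)
    ext H
    show H ∈ Sp K ((.cup o, l.length) :: (.cross s, l.length + 1) :: B) (l ++ a :: r) ↔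
      H ∈ Sp K ((.cup o, l.length + 1) :: (.cross (!s), l.length) :: B) (l ++ a :: r)
    rw [lb_cup, lb_cup1]
    cases s
    · simp only [lb_crossF1, Bool.not_false, lb_crossT]
      constructor
      · rintro ⟨c, hc⟩
        exact ⟨K.op a c, by rw [K.invo]; exact hc⟩
      · rintro ⟨c, hc⟩
        exact ⟨K.op a c, by rw [K.invo]; exact hc⟩
    · simp only [lb_crossT1, Bool.not_true, lb_crossF]
  | slideCap s i =>
    obtain ⟨f1, w1, s1, g1⟩ := fits hX
    obtain ⟨f2, w2, s2, g2⟩ := fits g1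
    have e1 := step_len s1
    simp only [Kind.ar, Kind.oar] at f1 f2 e1
    obtain ⟨l, a, b, c, r, rfl, rfl⟩ := dec33 v i (by omega)
    ext H
    show H ∈ Sp K ((.cross s, l.length) :: (.cap, l.length + 1) :: B) (l ++ a :: b :: c :: r) ↔
      H ∈ Sp K ((.cross (!s), l.length + 1) :: (.cap, l.length) :: B) (l ++ a :: b :: c :: r)
    cases s
    · rw [lb_crossF, Bool.not_false, lb_crossT1, lb_cap1, lb_cap]
      have hval : ∀ H' ∈ Sp K B (l ++ b :: r), K.U (K.op b a) ⊔ H' = K.U a ⊔ H' := by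
        intro H' hH'
        have h1 := hmid l r _ H' hH'
        have h2 := K.sub b a
        have h3 := K.sub b (K.op b a)
        rw [K.invo] at h3
        exact le_antisymm
          (sup_le (h2.trans (sup_le (h1.trans le_sup_right) le_sup_left)) le_sup_right)
          (sup_le (h3.trans (sup_le (h1.trans le_sup_right) le_sup_left)) le_sup_right)
      constructor
      · rintro ⟨h, H', hH', rfl⟩
        exact ⟨by rw [← h, K.invo], H', hH', hval H' hH'⟩
      · rintro ⟨h, H', hH', rfl⟩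
        refine ⟨by rw [h, K.invo], H', hH', (hval H' hH').symm⟩
    · rw [lb_crossT, Bool.not_true, lb_crossF1, lb_cap1, lb_cap]
      constructor
      · rintro ⟨rfl, h⟩
        exact ⟨rfl, h⟩
      · rintro ⟨rfl, h⟩
        exact ⟨rfl, h⟩

end Pool.BraidIndex.Cox
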