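import Pool.Agent.Work.MP_9d4fac_cox.Interface

set_option autoImplicit false

namespace Pool.BraidIndex.Cox

open Pool.BraidIndex

namespace ClsC

/-- a crossing determines the two circles which it joins -/
theorem joins_unique {D : List Piece} {t : ℕ} {a b c d : Circle D} (h : Joins D t a b)
    (h' : Joins D t c d) : (a = c ∧ b = d) ∨ (a = d ∧ b = c) := by
  classical
  obtain ⟨s, i, x, y, hD, hx, hy, hab⟩ := h
  obtain ⟨s', i', x', y', hD', hx', hy', hcd⟩ := h'
  rw [hD] at hD'
  obtain ⟨-, rfl⟩ : Kind.cross s = Kind.cross s' ∧ i = i' := by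
    simpa using hD'
  have hxx : x = x' := Subtype.ext (hx.trans hx'.symm)
  have hyy : y = y' := Subtype.ext (hy.trans hy'.symm)
  subst hxx
  subst hyy
  rcases hab with ⟨rfl, rfl⟩ | ⟨rfl, rfl⟩ <;> rcases hcd with ⟨rfl, rfl⟩ | ⟨rfl, rfl⟩
  · exact Or.inl ⟨rfl, rfl⟩
  · exact Or.inr ⟨rfl, rfl⟩
  · exact Or.inr ⟨rfl, rfl⟩
  · exact Or.inl ⟨rfl, rfl⟩

end ClsC

open ClsC in
theorem c_cls : T_cls := by
  classical
  intro D X
  rcases isEmpty_or_nonempty (Circle D) with hE | ⟨⟨c0⟩⟩
  · rw [circles, Nat.card_of_isEmpty]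
    exact Nat.zero_le _
  have hfin : Finite (Cls D X) := Quotient.finite _
  -- the two ends of the crossing `t`
  let P : ℕ → Prop := fun t => ∃ q : Circle D × Circle D, Joins D t q.1 q.2
  let E : ℕ → Circle D × Circle D := fun t => if h : P t then h.choose else (c0, c0)
  have hE : ∀ t, P t → Joins D t (E t).1 (E t).2 := by
    intro t h
    have h1 : E t = h.choose := dif_pos h
    rw [h1]
    exact h.choose_spec
  have hcount := p_count 2 (Circle D) X (fun t => (E t).1) (fun t => (E t).2)
  -- such functions factor through the classes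
  have hle : Nat.card {f : Circle D → ZMod 2 // ∀ t ∈ X, f (E t).1 = f (E t).2} ≤
      Nat.card (Cls D X → ZMod 2) := by
    have hf : ∀ f : {f : Circle D → ZMod 2 // ∀ t ∈ X, f (E t).1 = f (E t).2},
        ∀ a b : Circle D, (clsSetoid D X).r a b → f.1 a = f.1 b := by
      intro f a b hab
      induction hab with
      | rel a b h =>
        obtain ⟨t, ht, hj⟩ := h
        have hP : P t := ⟨(a, b), hj⟩
        rcases joins_unique hj (hE t hP) with ⟨rfl, rfl⟩ | ⟨rfl, rfl⟩
        · exact f.2 t ht
        · exact (f.2 t ht).symm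
      | refl a => rfl
      | symm a b _ ih => exact ih.symm
      | trans a b c _ _ ih1 ih2 => exact ih1.trans ih2
    refine Nat.card_le_card_of_injective
      (fun f => (fun c : Cls D X => Quotient.lift f.1 (fun a b h => hf f a b h) c)) ?_
    intro f g hfg
    apply Subtype.ext
    funext a
    have h := congrFun hfg (Quotient.mk (clsSetoid D X) a)
    exact h
  have hcard : Nat.card (Cls D X → ZMod 2) = 2 ^ Nat.card (Cls D X) := by
    have := Fintype.ofFinite (Cls D X)
    rw [Nat.card_fun, Nat.card_zmod]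
  rw [hcard] at hle
  have h2 : 2 ^ circles D ≤ 2 ^ (X.card + Nat.card (Cls D X)) := by
    rw [pow_add]
    exact hcount.trans (Nat.mul_le_mul_left _ hle)
  exact (Nat.pow_le_pow_iff_right (by norm_num)).1 h2

end Pool.BraidIndex.Cox
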