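import Pool.Agent.Work.MP_9d4fac_cox.Interface

/-!
# KEI: the kei of the involutions with a small image of `1 - T`
-/

set_option autoImplicit false

namespace Pool.BraidIndex.Cox

namespace KeiAux

variable {ι : Type} [Fintype ι]

/-- the involutions `T` with `1 - T` of rank at most one -/
def Inv1 (ι : Type) [Fintype ι] : Type :=
  {T : Module.End ℝ (ι → ℝ) // T * T = 1 ∧ Module.finrank ℝ (LinearMap.range (1 - T)) ≤ 1}

theorem sq_conj {E : Type} [Ring E] {A B : E} (hA : A * A = 1) (hB : B * B = 1) :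
    (A * B * A) * (A * B * A) = 1 := by
  calc (A * B * A) * (A * B * A) = A * B * (A * A) * B * A := by noncomm_ring
    _ = A * (B * B) * A := by rw [hA]; noncomm_ring
    _ = 1 := by rw [hB, mul_one, hA]

theorem rank_conj {A B : Module.End ℝ (ι → ℝ)} (hA : A * A = 1) :
    Module.finrank ℝ (LinearMap.range (1 - A * B * A)) ≤ Module.finrank ℝ (LinearMap.range (1 - B)) := by
  have e : 1 - A * B * A = A ∘ₗ ((1 - B) ∘ₗ A) := by
    have e1 : 1 - A * B * A = A * ((1 - B) * A) := by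
      have : A * ((1 - B) * A) = A * A - A * B * A := by rw [sub_mul, mul_sub, one_mul, mul_assoc]
      rw [this, hA]
    exact e1
  rw [e, LinearMap.range_comp]
  refine le_trans (Submodule.finrank_map_le _ _) ?_
  exact Submodule.finrank_mono (LinearMap.range_comp_le_range _ _)

/-- the kei -/
noncomputable def KK (ι : Type) [Fintype ι] : Kei (Inv1 ι) (Submodule ℝ (ι → ℝ)) where
  op A B := ⟨A.1 * B.1 * A.1, sq_conj A.2.1 B.2.1, le_trans (rank_conj A.2.1) B.2.2⟩
  U A := LinearMap.range (1 - A.1)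
  idem A := Subtype.ext (by
    change A.1 * A.1 * A.1 = A.1
    rw [A.2.1, one_mul])
  invo A B := Subtype.ext (by
    change A.1 * (A.1 * B.1 * A.1) * A.1 = B.1
    calc A.1 * (A.1 * B.1 * A.1) * A.1 = (A.1 * A.1) * B.1 * (A.1 * A.1) := by noncomm_ring
      _ = B.1 := by rw [A.2.1, one_mul, mul_one])
  dist A B C := Subtype.ext (by
    change A.1 * (B.1 * C.1 * B.1) * A.1 = (A.1 * B.1 * A.1) * (A.1 * C.1 * A.1) * (A.1 * B.1 * A.1)
    calc A.1 * (B.1 * C.1 * B.1) * A.1 = A.1 * B.1 * 1 * C.1 * 1 * B.1 * A.1 := by noncomm_ring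
      _ = A.1 * B.1 * (A.1 * A.1) * C.1 * (A.1 * A.1) * B.1 * A.1 := by rw [A.2.1]
      _ = _ := by noncomm_ring)
  sub A B := by
    intro x hx
    obtain ⟨v, rfl⟩ := hx
    have e : (1 - A.1 * B.1 * A.1) v = ((1 - A.1) v + (1 - A.1) (B.1 (A.1 v))) + (1 - B.1) (A.1 v) := by
      simp only [LinearMap.sub_apply, Module.End.one_apply, Module.End.mul_apply]
      abel
    change (1 - A.1 * B.1 * A.1) v ∈ _
    rw [e]
    exact Submodule.add_mem_sup (Submodule.add_mem _ ⟨_, rfl⟩ ⟨_, rfl⟩) ⟨_, rfl⟩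

theorem tw_iter (k : ℕ) : ∀ a b : Inv1 ι, ((tw (KK ι))^[k] (a, b)).1.1 = (a.1 * b.1) ^ k * a.1 ∧
    ((tw (KK ι))^[k] (a, b)).2.1 = (a.1 * b.1) ^ k * b.1 := by
  induction k with
  | zero => intro a b; simp
  | succ k ih =>
    intro a b
    rw [Function.iterate_succ_apply]
    have h := ih ((KK ι).op a b) a
    have e0 : tw (KK ι) (a, b) = ((KK ι).op a b, a) := rfl
    rw [e0]
    have e1 : ((KK ι).op a b).1 = a.1 * b.1 * a.1 := rfl
    rw [e1] at h
    have e2 : a.1 * b.1 * a.1 * a.1 = a.1 * b.1 := by rw [mul_assoc, a.2.1, mul_one]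
    rw [e2] at h
    refine ⟨?_, ?_⟩
    · rw [h.1, pow_succ]
      noncomm_ring
    · rw [h.2, pow_succ, mul_assoc, mul_assoc a.1, b.2.1, mul_one]

end KeiAux

open KeiAux

theorem c_kei : T_kei := by
  intro ι _ _ m s hs hv ha hm
  have hrk : ∀ a, Module.finrank ℝ (LinearMap.range (1 - s a)) ≤ 1 := by
    intro a
    have h1 : LinearMap.range (1 - s a) ≤ Submodule.span ℝ {(Pi.single a 1 : ι → ℝ)} := by
      rintro x ⟨v, rfl⟩
      obtain ⟨c, hc⟩ := hv a v
      rw [Submodule.mem_span_singleton]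
      exact ⟨c, by rw [← hc]; rfl⟩
    refine le_trans (Submodule.finrank_mono h1) ?_
    exact le_of_eq (finrank_span_singleton (by
      intro h
      have := congrFun h a
      simp at this))
  refine ⟨Inv1 ι, KK ι, fun a => ⟨s a, hs a, hrk a⟩, ?_, ?_, ?_⟩
  · intro a b r hab hr
    obtain ⟨t, rfl⟩ := hr
    have h := tw_iter (m a b * t) (⟨s a, hs a, hrk a⟩ : Inv1 ι) ⟨s b, hs b, hrk b⟩
    have e : (s a * s b) ^ (m a b * t) = 1 := by rw [pow_mul, hm a b hab, one_pow]
    apply Prod.ext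
    · apply Subtype.ext
      rw [h.1]
      change (s a * s b) ^ (m a b * t) * s a = s a
      rw [e, one_mul]
    · apply Subtype.ext
      rw [h.2]
      change (s a * s b) ^ (m a b * t) * s b = s b
      rw [e, one_mul]
  · intro cs
    induction cs with
    | nil =>
      change Module.finrank ℝ (⊥ : Submodule ℝ (ι → ℝ)) ≤ 0
      rw [finrank_bot]
    | cons A cs ih =>
      change Module.finrank ℝ ((KK ι).U A ⊔ ls (KK ι) cs : Submodule ℝ (ι → ℝ)) ≤ cs.length + 1
      have h1 := Submodule.finrank_add_le_finrank_add_finrank ((KK ι).U A) (ls (KK ι) cs)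
      have h2 : Module.finrank ℝ ((KK ι).U A) ≤ 1 := A.2.2
      omega
  · intro H hH
    rw [eq_top_iff, ← (Pi.basisFun ℝ ι).span_eq, Submodule.span_le]
    rintro x ⟨a, rfl⟩
    have h1 : (1 - s a) (Pi.single a 1) ∈ H := hH a ⟨_, rfl⟩
    have h2 : (1 - s a) (Pi.single a (1 : ℝ)) = (2 : ℝ) • (Pi.single a 1 : ι → ℝ) := by
      rw [LinearMap.sub_apply, Module.End.one_apply, ha a, two_smul]
      abel
    rw [h2] at h1
    have h3 := H.smul_mem (1 / 2 : ℝ) h1
    rw [smul_smul] at h3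
    norm_num at h3
    simpa using h3

end Pool.BraidIndex.Cox
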