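import Pool.Agent.Work.MP_9d4fac_cox.Interface
import Pool.Agent.Work.MP_9d4fac_gt.S_localB

set_option autoImplicit false

namespace Pool.BraidIndex.Cox

open Pool.BraidIndex

namespace TL

section
variable {Q L : Type} [SemilatticeSup L] [OrderBot L] (K : Kei Q L)

theorem ls_nil : ls K [] = ⊥ := rfl

theorem ls_cons (a : Q) (v : List Q) : ls K (a :: v) = K.U a ⊔ ls K v := rfl

theorem ls_append (v w : List Q) : ls K (v ++ w) = ls K v ⊔ ls K w := by
  induction v with
  | nil => rw [List.nil_append, ls_nil, bot_sup_eq]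
  | cons a v ih => rw [List.cons_append, ls_cons, ls_cons, ih, sup_assoc]

theorem low {B : List Piece} {w : List Q} {H : L} (h : H ∈ Sp K B w) : ls K w ≤ H := by
  rcases B with _ | ⟨q, D⟩
  · obtain ⟨rfl, rfl⟩ : w = [] ∧ H = ⊥ := h
    exact le_of_eq (ls_nil K)
  · obtain ⟨v', _, H', _, rfl⟩ : ∃ v' ∈ acts K q w, ∃ H' ∈ Sp K D v', H = ls K w ⊔ H' := h
    exact le_sup_left

theorem split (k : Kind) (l u r : List Q) (D : List Piece) (H : L) (h : u.length = k.ar) :
    H ∈ Sp K ((k, l.length) :: D) (l ++ u ++ r) ↔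
      ∃ u' ∈ cols K k u, ∃ H' ∈ Sp K D (l ++ u' ++ r), H = ls K (l ++ u ++ r) ⊔ H' := by
  constructor
  · intro hH
    obtain ⟨v', hv', H', hH', rfl⟩ : ∃ v' ∈ acts K (k, l.length) (l ++ u ++ r),
      ∃ H' ∈ Sp K D v', H = ls K (l ++ u ++ r) ⊔ H' := hH
    obtain ⟨l1, u1, r1, u1', e1, e2, e3, e4, rfl⟩ : ∃ (l1 u1 r1 u1' : List Q), l1.length = l.length ∧
      u1.length = k.ar ∧ l ++ u ++ r = l1 ++ u1 ++ r1 ∧ u1' ∈ cols K k u1 ∧ v' = l1 ++ u1' ++ r1 := hv'
    rw [List.append_assoc, List.append_assoc] at e3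
    obtain ⟨rfl, e5⟩ := List.append_inj e3 e1.symm
    obtain ⟨rfl, rfl⟩ := List.append_inj e5 (h.trans e2.symm)
    exact ⟨u1', e4, H', hH', rfl⟩
  · rintro ⟨u', hu', H', hH', rfl⟩
    exact ⟨l ++ u' ++ r, ⟨l, u, r, u', rfl, h, rfl, hu', rfl⟩, H', hH', rfl⟩

theorem mcup (o : Bool) (l r : List Q) (D : List Piece) (H : L) :
    H ∈ Sp K ((.cup o, l.length) :: D) (l ++ r) ↔
      ∃ c, ∃ H' ∈ Sp K D (l ++ c :: c :: r), H = ls K (l ++ r) ⊔ H' := by
  have h := split K (.cup o) l [] r D H rfl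
  rw [List.append_nil] at h
  rw [h]
  constructor
  · rintro ⟨u', ⟨c, rfl⟩, H', hH', rfl⟩
    exact ⟨c, H', by simpa using hH', rfl⟩
  · rintro ⟨c, H', hH', rfl⟩
    exact ⟨[c, c], ⟨c, rfl⟩, H', by simpa using hH', rfl⟩

theorem mcap (l r : List Q) (a b : Q) (D : List Piece) (H : L) :
    H ∈ Sp K ((.cap, l.length) :: D) (l ++ a :: b :: r) ↔
      a = b ∧ ∃ H' ∈ Sp K D (l ++ r), H = ls K (l ++ a :: b :: r) ⊔ H' := by
  have h := split K .cap l [a, b] r D H rfl
  have e : l ++ [a, b] ++ r = l ++ a :: b :: r := by simp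
  rw [e] at h
  rw [h]
  constructor
  · rintro ⟨u', ⟨hab, rfl⟩, H', hH', rfl⟩
    exact ⟨hab, H', by simpa using hH', rfl⟩
  · rintro ⟨hab, H', hH', rfl⟩
    exact ⟨[], ⟨hab, rfl⟩, H', by simpa using hH', rfl⟩

theorem mtrue (l r : List Q) (a b : Q) (D : List Piece) (H : L) :
    H ∈ Sp K ((.cross true, l.length) :: D) (l ++ a :: b :: r) ↔
      ∃ H' ∈ Sp K D (l ++ K.op a b :: a :: r), H = ls K (l ++ a :: b :: r) ⊔ H' := by
  have h := split K (.cross true) l [a, b] r D H rfl
  have e : l ++ [a, b] ++ r = l ++ a :: b :: r := by simp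
  rw [e] at h
  rw [h]
  constructor
  · rintro ⟨u', hu', H', hH', rfl⟩
    obtain rfl : u' = [K.op a b, a] := hu'
    exact ⟨H', by simpa using hH', rfl⟩
  · rintro ⟨H', hH', rfl⟩
    exact ⟨[K.op a b, a], rfl, H', by simpa using hH', rfl⟩

theorem mfalse (l r : List Q) (a b : Q) (D : List Piece) (H : L) :
    H ∈ Sp K ((.cross false, l.length) :: D) (l ++ a :: b :: r) ↔
      ∃ H' ∈ Sp K D (l ++ b :: K.op b a :: r), H = ls K (l ++ a :: b :: r) ⊔ H' := by
  have h := split K (.cross false) l [a, b] r D H rfl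
  have e : l ++ [a, b] ++ r = l ++ a :: b :: r := by simp
  rw [e] at h
  rw [h]
  constructor
  · rintro ⟨u', hu', H', hH', rfl⟩
    obtain rfl : u' = [b, K.op b a] := hu'
    exact ⟨H', by simpa using hH', rfl⟩
  · rintro ⟨H', hH', rfl⟩
    exact ⟨[b, K.op b a], rfl, H', by simpa using hH', rfl⟩

theorem mcup1 (o : Bool) (l r : List Q) (x : Q) (D : List Piece) (H : L) :
    H ∈ Sp K ((.cup o, l.length + 1) :: D) (l ++ x :: r) ↔
      ∃ c, ∃ H' ∈ Sp K D (l ++ x :: c :: c :: r), H = ls K (l ++ x :: r) ⊔ H' := by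
  have h := mcup K o (l ++ [x]) r D H
  simpa only [List.append_assoc, List.cons_append, List.nil_append, List.length_append,
    List.length_cons, List.length_nil, Nat.zero_add] using h

theorem mcap1 (l r : List Q) (x a b : Q) (D : List Piece) (H : L) :
    H ∈ Sp K ((.cap, l.length + 1) :: D) (l ++ x :: a :: b :: r) ↔
      a = b ∧ ∃ H' ∈ Sp K D (l ++ x :: r), H = ls K (l ++ x :: a :: b :: r) ⊔ H' := by
  have h := mcap K (l ++ [x]) r a b D H
  simpa only [List.append_assoc, List.cons_append, List.nil_append, List.length_append,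
    List.length_cons, List.length_nil, Nat.zero_add] using h

theorem mtrue1 (l r : List Q) (x a b : Q) (D : List Piece) (H : L) :
    H ∈ Sp K ((.cross true, l.length + 1) :: D) (l ++ x :: a :: b :: r) ↔
      ∃ H' ∈ Sp K D (l ++ x :: K.op a b :: a :: r), H = ls K (l ++ x :: a :: b :: r) ⊔ H' := by
  have h := mtrue K (l ++ [x]) r a b D H
  simpa only [List.append_assoc, List.cons_append, List.nil_append, List.length_append,
    List.length_cons, List.length_nil, Nat.zero_add] using h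

theorem mfalse1 (l r : List Q) (x a b : Q) (D : List Piece) (H : L) :
    H ∈ Sp K ((.cross false, l.length + 1) :: D) (l ++ x :: a :: b :: r) ↔
      ∃ H' ∈ Sp K D (l ++ x :: b :: K.op b a :: r), H = ls K (l ++ x :: a :: b :: r) ⊔ H' := by
  have h := mfalse K (l ++ [x]) r a b D H
  simpa only [List.append_assoc, List.cons_append, List.nil_append, List.length_append,
    List.length_cons, List.length_nil, Nat.zero_add] using h

/-- the colours between two pieces are absorbed -/
theorem ab2 {v x h : L} (hx : x ≤ v ⊔ h) : v ⊔ (x ⊔ h) = v ⊔ h :=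
  le_antisymm (sup_le le_sup_left (sup_le hx le_sup_right)) (sup_le le_sup_left (le_sup_right.trans le_sup_right))

theorem ab3 {v x y h : L} (hx : x ≤ v ⊔ h) (hy : y ≤ v ⊔ h) : v ⊔ (x ⊔ (y ⊔ h)) = v ⊔ h :=
  le_antisymm (sup_le le_sup_left (sup_le hx (sup_le hy le_sup_right)))
    (sup_le le_sup_left ((le_sup_right.trans le_sup_right).trans le_sup_right))

end

end TL

open TL in
theorem c_local : T_local := by
  intro Q L _ _ K X Y B os hXY hX hY v hv
  ext H
  cases hXY with
  | far k1 k2 i d =>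
    obtain ⟨f1, w1, s1, g1⟩ := LB.fits hX
    obtain ⟨f2, w2, s2, g2⟩ := LB.fits g1
    have e1 := LB.step_len s1
    simp only at f1 f2 e1
    have hlen : i + (k1.ar + d + k2.ar) ≤ v.length := by omega
    obtain ⟨l, u, r, rfl, hl, hu⟩ := LB.dec3 v i _ hlen
    obtain ⟨u1, t1, t2, rfl, hu1, ht1⟩ := LB.dec3 u 0 k1.ar (by omega)
    rw [List.length_eq_zero_iff] at hu1
    subst hu1
    obtain ⟨m, u2, t3, rfl, hm, hu2⟩ := LB.dec3 t2 d k2.ar (by
      simp only [List.length_append, List.length_nil] at hu; omega)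
    have ht3 : t3 = [] := by
      rw [← List.length_eq_zero_iff]
      simp only [List.length_append, List.length_nil] at hu
      omega
    subst ht3
    subst hl
    have clen : ∀ (k : Kind) (u u' : List Q), u' ∈ cols K k u → u'.length = k.oar := by
      intro k u u' hk
      rcases k with o | _ | s
      · rcases u with _ | ⟨a, u⟩
        · obtain ⟨c, rfl⟩ : ∃ c, u' = [c, c] := hk
          rfl
        · exact absurd hk (Set.notMem_empty _)
      · rcases u with _ | ⟨a, _ | ⟨b, _ | ⟨c, u⟩⟩⟩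
        · exact absurd hk (Set.notMem_empty _)
        · exact absurd hk (Set.notMem_empty _)
        · obtain ⟨_, rfl⟩ : a = b ∧ u' = [] := hk
          rfl
        · exact absurd hk (Set.notMem_empty _)
      · rcases u with _ | ⟨a, _ | ⟨b, _ | ⟨c, u⟩⟩⟩
        · exact absurd hk (Set.notMem_empty _)
        · exact absurd hk (Set.notMem_empty _)
        · obtain rfl : u' = (if s then [K.op a b, a] else [b, K.op b a]) := hk
          cases s <;> rfl
        · exact absurd hk (Set.notMem_empty _)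
    have ev : l ++ ([] ++ t1 ++ (m ++ u2 ++ [])) ++ r = l ++ t1 ++ m ++ u2 ++ r := by simp
    rw [ev]
    have eX : H ∈ Sp K ([(k1, l.length), (k2, l.length + k1.oar + d)] ++ B) (l ++ t1 ++ m ++ u2 ++ r) ↔
        ∃ u1' ∈ cols K k1 t1, ∃ u2' ∈ cols K k2 u2, ∃ H' ∈ Sp K B (l ++ u1' ++ m ++ u2' ++ r),
          H = ls K (l ++ t1 ++ m ++ u2 ++ r) ⊔ H' := by
      have h1 := split K k1 l t1 (m ++ u2 ++ r) ((k2, l.length + k1.oar + d) :: B) H ht1
      have e2 : l ++ t1 ++ (m ++ u2 ++ r) = l ++ t1 ++ m ++ u2 ++ r := by simp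
      rw [e2] at h1
      refine h1.trans ?_
      have h2 : ∀ u1' ∈ cols K k1 t1, ∀ H1 : L,
          H1 ∈ Sp K ((k2, l.length + k1.oar + d) :: B) (l ++ u1' ++ (m ++ u2 ++ r)) ↔
          ∃ u2' ∈ cols K k2 u2, ∃ H' ∈ Sp K B (l ++ u1' ++ m ++ u2' ++ r),
            H1 = ls K (l ++ u1' ++ m ++ u2 ++ r) ⊔ H' := by
        intro u1' hu1' H1
        have h3 := split K k2 (l ++ u1' ++ m) u2 r B H1 hu2
        have e3 : (l ++ u1' ++ m).length = l.length + k1.oar + d := by
          simp only [List.length_append, clen _ _ _ hu1', hm]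
        rw [e3] at h3
        have e4 : l ++ u1' ++ (m ++ u2 ++ r) = l ++ u1' ++ m ++ u2 ++ r := by simp
        rw [e4]
        exact h3
      have h4 : ∀ u1' ∈ cols K k1 t1, ∀ u2' ∈ cols K k2 u2, ∀ H' ∈ Sp K B (l ++ u1' ++ m ++ u2' ++ r),
          ls K (l ++ u1' ++ m ++ u2 ++ r) ≤ ls K (l ++ t1 ++ m ++ u2 ++ r) ⊔ H' := by
        intro u1' _ u2' _ H' hH'
        have h := low K hH'
        simp only [ls_append, sup_le_iff] at h ⊢
        obtain ⟨⟨⟨⟨h5, h6⟩, h7⟩, h8⟩, h9⟩ := h
        exact ⟨⟨⟨⟨h5.trans le_sup_right, h6.trans le_sup_right⟩, h7.trans le_sup_right⟩,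
          (le_sup_right.trans le_sup_left).trans le_sup_left⟩, h9.trans le_sup_right⟩
      constructor
      · rintro ⟨u1', hu1', H1, hH1, rfl⟩
        obtain ⟨u2', hu2', H', hH', rfl⟩ := (h2 u1' hu1' H1).1 hH1
        exact ⟨u1', hu1', u2', hu2', H', hH', ab2 (h4 u1' hu1' u2' hu2' H' hH')⟩
      · rintro ⟨u1', hu1', u2', hu2', H', hH', rfl⟩
        exact ⟨u1', hu1', _, (h2 u1' hu1' _).2 ⟨u2', hu2', H', hH', rfl⟩,
          (ab2 (h4 u1' hu1' u2' hu2' H' hH')).symm⟩
    have eY : H ∈ Sp K ([(k2, l.length + k1.ar + d), (k1, l.length)] ++ B) (l ++ t1 ++ m ++ u2 ++ r) ↔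
        ∃ u1' ∈ cols K k1 t1, ∃ u2' ∈ cols K k2 u2, ∃ H' ∈ Sp K B (l ++ u1' ++ m ++ u2' ++ r),
          H = ls K (l ++ t1 ++ m ++ u2 ++ r) ⊔ H' := by
      have h1 := split K k2 (l ++ t1 ++ m) u2 r ((k1, l.length) :: B) H hu2
      have e3 : (l ++ t1 ++ m).length = l.length + k1.ar + d := by
        simp only [List.length_append, ht1, hm]
      rw [e3] at h1
      refine h1.trans ?_
      have h2 : ∀ u2' : List Q, ∀ H1 : L,
          H1 ∈ Sp K ((k1, l.length) :: B) (l ++ t1 ++ m ++ u2' ++ r) ↔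
          ∃ u1' ∈ cols K k1 t1, ∃ H' ∈ Sp K B (l ++ u1' ++ m ++ u2' ++ r),
            H1 = ls K (l ++ t1 ++ m ++ u2' ++ r) ⊔ H' := by
        intro u2' H1
        have h3 := split K k1 l t1 (m ++ u2' ++ r) B H1 ht1
        have e4 : ∀ x : List Q, l ++ x ++ (m ++ u2' ++ r) = l ++ x ++ m ++ u2' ++ r := by
          intro x
          simp
        simp only [e4] at h3
        exact h3
      have h4 : ∀ u1' ∈ cols K k1 t1, ∀ u2' ∈ cols K k2 u2, ∀ H' ∈ Sp K B (l ++ u1' ++ m ++ u2' ++ r),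
          ls K (l ++ t1 ++ m ++ u2' ++ r) ≤ ls K (l ++ t1 ++ m ++ u2 ++ r) ⊔ H' := by
        intro u1' _ u2' _ H' hH'
        have h := low K hH'
        simp only [ls_append, sup_le_iff] at h ⊢
        obtain ⟨⟨⟨⟨h5, h6⟩, h7⟩, h8⟩, h9⟩ := h
        exact ⟨⟨⟨⟨h5.trans le_sup_right,
          (((le_sup_right.trans le_sup_left).trans le_sup_left).trans le_sup_left).trans le_sup_left⟩,
          h7.trans le_sup_right⟩, h8.trans le_sup_right⟩, h9.trans le_sup_right⟩
      constructor
      · rintro ⟨u2', hu2', H1, hH1, rfl⟩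
        obtain ⟨u1', hu1', H', hH', rfl⟩ := (h2 u2' H1).1 hH1
        exact ⟨u1', hu1', u2', hu2', H', hH', ab2 (h4 u1' hu1' u2' hu2' H' hH')⟩
      · rintro ⟨u1', hu1', u2', hu2', H', hH', rfl⟩
        exact ⟨u2', hu2', _, (h2 u2' _).2 ⟨u1', hu1', H', hH', rfl⟩,
          (ab2 (h4 u1' hu1' u2' hu2' H' hH')).symm⟩
    exact eX.trans eY.symm
  | zigL o i =>
    obtain ⟨f1, w1, s1, g1⟩ := LB.fits hX
    simp only [Kind.ar] at f1
    obtain ⟨l, a, r, rfl, rfl⟩ := LB.dec1 v i (by omega)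
    show H ∈ Sp K ((.cup o, l.length + 1) :: (.cap, l.length) :: B) (l ++ a :: r) ↔ H ∈ Sp K B (l ++ a :: r)
    rw [mcup1]
    simp only [mcap]
    constructor
    · rintro ⟨c, H1, ⟨rfl, H', hH', rfl⟩, rfl⟩
      have h := low K hH'
      have h1 : ls K (l ++ a :: a :: a :: r) ≤ H' := by
        simp only [ls_append, ls_cons, sup_le_iff] at h ⊢
        tauto
      rw [sup_eq_right.2 h1, sup_eq_right.2 h]
      exact hH'
    · intro hH
      have h := low K hH
      have h1 : ls K (l ++ a :: a :: a :: r) ≤ H := by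
        simp only [ls_append, ls_cons, sup_le_iff] at h ⊢
        tauto
      exact ⟨a, H, ⟨rfl, H, hH, (sup_eq_right.2 h1).symm⟩, (sup_eq_right.2 h).symm⟩
  | zigR o i =>
    obtain ⟨f1, w1, s1, g1⟩ := LB.fits hX
    obtain ⟨f2, w2, s2, g2⟩ := LB.fits g1
    have e1 := LB.step_len s1
    simp only [Kind.ar, Kind.oar] at f1 f2 e1
    obtain ⟨l, a, r, rfl, rfl⟩ := LB.dec1 v i (by omega)
    show H ∈ Sp K ((.cup o, l.length) :: (.cap, l.length + 1) :: B) (l ++ a :: r) ↔ H ∈ Sp K B (l ++ a :: r)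
    rw [mcup]
    simp only [mcap1]
    constructor
    · rintro ⟨c, H1, ⟨rfl, H', hH', rfl⟩, rfl⟩
      have h := low K hH'
      have h1 : ls K (l ++ c :: c :: c :: r) ≤ H' := by
        simp only [ls_append, ls_cons, sup_le_iff] at h ⊢
        tauto
      rw [sup_eq_right.2 h1, sup_eq_right.2 h]
      exact hH'
    · intro hH
      have h := low K hH
      have h1 : ls K (l ++ a :: a :: a :: r) ≤ H := by
        simp only [ls_append, ls_cons, sup_le_iff] at h ⊢
        tauto
      exact ⟨a, H, ⟨rfl, H, hH, (sup_eq_right.2 h1).symm⟩, (sup_eq_right.2 h).symm⟩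
  | r1cup o s i =>
    obtain ⟨f1, w1, s1, g1⟩ := LB.fits hX
    simp only [Kind.ar] at f1
    obtain ⟨l, u, r, rfl, hl, hu⟩ := LB.dec3 v i 0 (by omega)
    rw [List.length_eq_zero_iff] at hu
    subst hu hl
    rw [List.append_nil]
    show H ∈ Sp K ((.cup o, l.length) :: (.cross s, l.length) :: B) (l ++ r) ↔
      H ∈ Sp K ((.cup (!o), l.length) :: B) (l ++ r)
    rw [mcup, mcup]
    have key : ∀ (c : Q) (H1 : L), H1 ∈ Sp K ((.cross s, l.length) :: B) (l ++ c :: c :: r) ↔
        H1 ∈ Sp K B (l ++ c :: c :: r) := by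
      intro c H1
      have key2 : H1 ∈ Sp K ((.cross s, l.length) :: B) (l ++ c :: c :: r) ↔
          ∃ H' ∈ Sp K B (l ++ c :: c :: r), H1 = ls K (l ++ c :: c :: r) ⊔ H' := by
        cases s
        · rw [mfalse, K.idem]
        · rw [mtrue, K.idem]
      rw [key2]
      constructor
      · rintro ⟨H', hH', rfl⟩
        rw [sup_eq_right.2 (low K hH')]
        exact hH'
      · intro hH
        exact ⟨H1, hH, (sup_eq_right.2 (low K hH)).symm⟩
    simp only [key]
  | r1cap s i =>
    obtain ⟨f1, w1, s1, g1⟩ := LB.fits hX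
    simp only [Kind.ar] at f1
    obtain ⟨l, a, b, r, rfl, rfl⟩ := LB.dec2 v i (by omega)
    show H ∈ Sp K ((.cross s, l.length) :: (.cap, l.length) :: B) (l ++ a :: b :: r) ↔
      H ∈ Sp K ((.cap, l.length) :: B) (l ++ a :: b :: r)
    have e1 : K.op a b = a ↔ a = b := by
      constructor
      · intro h
        have h2 := K.invo a b
        rw [h, K.idem] at h2
        exact h2
      · rintro rfl
        exact K.idem _
    have e2 : b = K.op b a ↔ a = b := by
      constructor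
      · intro h
        have h2 := K.invo b a
        rw [← h, K.idem] at h2
        exact h2.symm
      · rintro rfl
        exact (K.idem _).symm
    rw [mcap]
    cases s
    · rw [mfalse]
      simp only [mcap, e2]
      constructor
      · rintro ⟨H1, ⟨rfl, H', hH', rfl⟩, rfl⟩
        refine ⟨rfl, H', hH', ?_⟩
        rw [K.idem]
        exact ab2 le_sup_left
      · rintro ⟨rfl, H', hH', rfl⟩
        refine ⟨_, ⟨rfl, H', hH', rfl⟩, ?_⟩
        rw [K.idem]
        exact (ab2 le_sup_left).symm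
    · rw [mtrue]
      simp only [mcap, e1]
      constructor
      · rintro ⟨H1, ⟨rfl, H', hH', rfl⟩, rfl⟩
        refine ⟨rfl, H', hH', ?_⟩
        rw [K.idem]
        exact ab2 le_sup_left
      · rintro ⟨rfl, H', hH', rfl⟩
        refine ⟨_, ⟨rfl, H', hH', rfl⟩, ?_⟩
        rw [K.idem]
        exact (ab2 le_sup_left).symm
  | r2 s i =>
    obtain ⟨f1, w1, s1, g1⟩ := LB.fits hX
    simp only [Kind.ar] at f1
    obtain ⟨l, a, b, r, rfl, rfl⟩ := LB.dec2 v i (by omega)
    show H ∈ Sp K ((.cross s, l.length) :: (.cross (!s), l.length) :: B) (l ++ a :: b :: r) ↔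
      H ∈ Sp K B (l ++ a :: b :: r)
    cases s
    · show H ∈ Sp K ((.cross false, l.length) :: (.cross true, l.length) :: B) (l ++ a :: b :: r) ↔ _
      rw [mfalse]
      simp only [mtrue, K.invo]
      have hs := K.sub b a
      constructor
      · rintro ⟨H1, ⟨H', hH', rfl⟩, rfl⟩
        have h := low K hH'
        have h1 : ls K (l ++ b :: K.op b a :: r) ≤ H' := by
          simp only [ls_append, ls_cons, sup_le_iff] at h ⊢
          exact ⟨h.1, h.2.2.1, hs.trans (sup_le h.2.2.1 h.2.1), h.2.2.2⟩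
        rw [sup_eq_right.2 h1, sup_eq_right.2 h]
        exact hH'
      · intro hH
        have h := low K hH
        have h1 : ls K (l ++ b :: K.op b a :: r) ≤ H := by
          simp only [ls_append, ls_cons, sup_le_iff] at h ⊢
          exact ⟨h.1, h.2.2.1, hs.trans (sup_le h.2.2.1 h.2.1), h.2.2.2⟩
        exact ⟨H, ⟨H, hH, (sup_eq_right.2 h1).symm⟩, (sup_eq_right.2 h).symm⟩
    · show H ∈ Sp K ((.cross true, l.length) :: (.cross false, l.length) :: B) (l ++ a :: b :: r) ↔ _
      rw [mtrue]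
      simp only [mfalse, K.invo]
      have hs := K.sub a b
      constructor
      · rintro ⟨H1, ⟨H', hH', rfl⟩, rfl⟩
        have h := low K hH'
        have h1 : ls K (l ++ K.op a b :: a :: r) ≤ H' := by
          simp only [ls_append, ls_cons, sup_le_iff] at h ⊢
          exact ⟨h.1, hs.trans (sup_le h.2.1 h.2.2.1), h.2.1, h.2.2.2⟩
        rw [sup_eq_right.2 h1, sup_eq_right.2 h]
        exact hH'
      · intro hH
        have h := low K hH
        have h1 : ls K (l ++ K.op a b :: a :: r) ≤ H := by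
          simp only [ls_append, ls_cons, sup_le_iff] at h ⊢
          exact ⟨h.1, hs.trans (sup_le h.2.1 h.2.2.1), h.2.1, h.2.2.2⟩
        exact ⟨H, ⟨H, hH, (sup_eq_right.2 h1).symm⟩, (sup_eq_right.2 h).symm⟩
  | r3 s i =>
    obtain ⟨f1, w1, s1, g1⟩ := LB.fits hX
    obtain ⟨f2, w2, s2, g2⟩ := LB.fits g1
    have e1 := LB.step_len s1
    simp only [Kind.ar, Kind.oar] at f1 f2 e1
    obtain ⟨l, a, b, c, r, rfl, rfl⟩ := LB.dec33 v i (by omega)
    show H ∈ Sp K ((.cross s, l.length) :: (.cross s, l.length + 1) :: (.cross s, l.length) :: B)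
      (l ++ a :: b :: c :: r) ↔
      H ∈ Sp K ((.cross s, l.length + 1) :: (.cross s, l.length) :: (.cross s, l.length + 1) :: B)
      (l ++ a :: b :: c :: r)
    have fa := le_sup_left.trans (le_of_eq (ls_append K l (a :: b :: c :: r)).symm)
    have fb := le_sup_right.trans (le_of_eq (ls_append K l (a :: b :: c :: r)).symm)
    simp only [ls_cons, sup_le_iff] at fb
    obtain ⟨fb1, fb2, fb3, fb4⟩ := fb
    have le3 : ∀ x y z : Q, K.U x ≤ ls K (l ++ a :: b :: c :: r) → K.U y ≤ ls K (l ++ a :: b :: c :: r) →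
        K.U z ≤ ls K (l ++ a :: b :: c :: r) → ls K (l ++ x :: y :: z :: r) ≤ ls K (l ++ a :: b :: c :: r) := by
      intro x y z hx hy hz
      rw [ls_append K l (x :: y :: z :: r)]
      simp only [ls_cons, sup_le_iff]
      exact ⟨fa, hx, hy, hz, fb4⟩
    have so : ∀ x y : Q, K.U x ≤ ls K (l ++ a :: b :: c :: r) → K.U y ≤ ls K (l ++ a :: b :: c :: r) →
        K.U (K.op x y) ≤ ls K (l ++ a :: b :: c :: r) := fun x y hx hy => (K.sub x y).trans (sup_le hx hy)
    cases s
    · rw [mfalse, mfalse1]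
      simp only [mfalse, mfalse1]
      have h1 := le3 b (K.op b a) c fb2 (so _ _ fb2 fb1) fb3
      have h2 := le3 b c (K.op c (K.op b a)) fb2 fb3 (so _ _ fb3 (so _ _ fb2 fb1))
      have h3 := le3 a c (K.op c b) fb1 fb3 (so _ _ fb3 fb2)
      have h4 := le3 c (K.op c a) (K.op c b) fb3 (so _ _ fb3 fb1) (so _ _ fb3 fb2)
      constructor
      · rintro ⟨H1, ⟨H2, ⟨H', hH', rfl⟩, rfl⟩, rfl⟩
        refine ⟨_, ⟨_, ⟨H', ?_, rfl⟩, rfl⟩, ?_⟩
        · rw [← K.dist]
          exact hH'
        · rw [ab3 (h1.trans le_sup_left) (h2.trans le_sup_left),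
            ab3 (h3.trans le_sup_left) (h4.trans le_sup_left)]
      · rintro ⟨H1, ⟨H2, ⟨H', hH', rfl⟩, rfl⟩, rfl⟩
        refine ⟨_, ⟨_, ⟨H', ?_, rfl⟩, rfl⟩, ?_⟩
        · rw [K.dist]
          exact hH'
        · rw [ab3 (h1.trans le_sup_left) (h2.trans le_sup_left),
            ab3 (h3.trans le_sup_left) (h4.trans le_sup_left)]
    · rw [mtrue, mtrue1]
      simp only [mtrue, mtrue1]
      have h1 := le3 (K.op a b) a c (so _ _ fb1 fb2) fb1 fb3
      have h2 := le3 (K.op a b) (K.op a c) a (so _ _ fb1 fb2) (so _ _ fb1 fb3) fb1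
      have h3 := le3 a (K.op b c) b fb1 (so _ _ fb2 fb3) fb2
      have h4 := le3 (K.op a (K.op b c)) a b (so _ _ fb1 (so _ _ fb2 fb3)) fb1 fb2
      constructor
      · rintro ⟨H1, ⟨H2, ⟨H', hH', rfl⟩, rfl⟩, rfl⟩
        refine ⟨_, ⟨_, ⟨H', ?_, rfl⟩, rfl⟩, ?_⟩
        · rw [K.dist]
          exact hH'
        · rw [ab3 (h1.trans le_sup_left) (h2.trans le_sup_left),
            ab3 (h3.trans le_sup_left) (h4.trans le_sup_left)]
      · rintro ⟨H1, ⟨H2, ⟨H', hH', rfl⟩, rfl⟩, rfl⟩
        refine ⟨_, ⟨_, ⟨H', ?_, rfl⟩, rfl⟩, ?_⟩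
        · rw [← K.dist]
          exact hH'
        · rw [ab3 (h1.trans le_sup_left) (h2.trans le_sup_left),
            ab3 (h3.trans le_sup_left) (h4.trans le_sup_left)]
  | slideCup o s i =>
    obtain ⟨f1, w1, s1, g1⟩ := LB.fits hX
    obtain ⟨f2, w2, s2, g2⟩ := LB.fits g1
    have e1 := LB.step_len s1
    simp only [Kind.ar, Kind.oar] at f1 f2 e1
    obtain ⟨l, a, r, rfl, rfl⟩ := LB.dec1 v i (by omega)
    show H ∈ Sp K ((.cup o, l.length) :: (.cross s, l.length + 1) :: B) (l ++ a :: r) ↔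
      H ∈ Sp K ((.cup o, l.length + 1) :: (.cross (!s), l.length) :: B) (l ++ a :: r)
    rw [mcup, mcup1]
    cases s
    · show _ ↔ ∃ c, ∃ H' ∈ Sp K ((.cross true, l.length) :: B) (l ++ a :: c :: c :: r), H = ls K (l ++ a :: r) ⊔ H'
      simp only [mfalse1, mtrue]
      constructor
      · rintro ⟨c, H1, ⟨H', hH', rfl⟩, rfl⟩
        have h := low K hH'
        have h1 : ls K (l ++ c :: c :: a :: r) ≤ ls K (l ++ a :: r) ⊔ H' := by
          refine le_trans ?_ le_sup_right
          simp only [ls_append, ls_cons, sup_le_iff] at h ⊢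
          tauto
        have h2 : ls K (l ++ a :: K.op a c :: K.op a c :: r) ≤ ls K (l ++ a :: r) ⊔ H' := by
          refine le_trans ?_ le_sup_right
          simp only [ls_append, ls_cons, sup_le_iff] at h ⊢
          tauto
        refine ⟨K.op a c, _, ⟨H', ?_, rfl⟩, ?_⟩
        · rw [K.invo]
          exact hH'
        · rw [ab2 h1, ab2 h2]
      · rintro ⟨c, H1, ⟨H', hH', rfl⟩, rfl⟩
        have h := low K hH'
        have h1 : ls K (l ++ K.op a c :: K.op a c :: a :: r) ≤ ls K (l ++ a :: r) ⊔ H' := by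
          refine le_trans ?_ le_sup_right
          simp only [ls_append, ls_cons, sup_le_iff] at h ⊢
          tauto
        have h2 : ls K (l ++ a :: c :: c :: r) ≤ ls K (l ++ a :: r) ⊔ H' := by
          refine le_trans ?_ le_sup_right
          simp only [ls_append, ls_cons, sup_le_iff] at h ⊢
          tauto
        refine ⟨K.op a c, _, ⟨H', ?_, rfl⟩, ?_⟩
        · rw [K.invo]
          exact hH'
        · rw [ab2 h1, ab2 h2]
    · show _ ↔ ∃ c, ∃ H' ∈ Sp K ((.cross false, l.length) :: B) (l ++ a :: c :: c :: r), H = ls K (l ++ a :: r) ⊔ H'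
      simp only [mtrue1, mfalse]
      constructor
      · rintro ⟨c, H1, ⟨H', hH', rfl⟩, rfl⟩
        have h := low K hH'
        have h1 : ls K (l ++ c :: c :: a :: r) ≤ ls K (l ++ a :: r) ⊔ H' := by
          simp only [ls_append, ls_cons, sup_le_iff] at h ⊢
          exact ⟨le_sup_left.trans le_sup_left, h.2.1.trans le_sup_right, h.2.1.trans le_sup_right,
            (le_sup_left.trans le_sup_right).trans le_sup_left,
            (le_sup_right.trans le_sup_right).trans le_sup_left⟩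
        have h2 : ls K (l ++ a :: c :: c :: r) ≤ ls K (l ++ a :: r) ⊔ H' := by
          simp only [ls_append, ls_cons, sup_le_iff] at h ⊢
          exact ⟨le_sup_left.trans le_sup_left,
            (le_sup_left.trans le_sup_right).trans le_sup_left, h.2.1.trans le_sup_right,
            h.2.1.trans le_sup_right, (le_sup_right.trans le_sup_right).trans le_sup_left⟩
        refine ⟨c, _, ⟨H', hH', rfl⟩, ?_⟩
        rw [ab2 h1, ab2 h2]
      · rintro ⟨c, H1, ⟨H', hH', rfl⟩, rfl⟩
        have h := low K hH'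
        have h1 : ls K (l ++ c :: c :: a :: r) ≤ ls K (l ++ a :: r) ⊔ H' := by
          simp only [ls_append, ls_cons, sup_le_iff] at h ⊢
          exact ⟨le_sup_left.trans le_sup_left, h.2.1.trans le_sup_right, h.2.1.trans le_sup_right,
            (le_sup_left.trans le_sup_right).trans le_sup_left,
            (le_sup_right.trans le_sup_right).trans le_sup_left⟩
        have h2 : ls K (l ++ a :: c :: c :: r) ≤ ls K (l ++ a :: r) ⊔ H' := by
          simp only [ls_append, ls_cons, sup_le_iff] at h ⊢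
          exact ⟨le_sup_left.trans le_sup_left,
            (le_sup_left.trans le_sup_right).trans le_sup_left, h.2.1.trans le_sup_right,
            h.2.1.trans le_sup_right, (le_sup_right.trans le_sup_right).trans le_sup_left⟩
        refine ⟨c, _, ⟨H', hH', rfl⟩, ?_⟩
        rw [ab2 h1, ab2 h2]
  | slideCap s i =>
    obtain ⟨f1, w1, s1, g1⟩ := LB.fits hX
    obtain ⟨f2, w2, s2, g2⟩ := LB.fits g1
    have e1 := LB.step_len s1
    simp only [Kind.ar, Kind.oar] at f1 f2 e1
    obtain ⟨l, a, b, c, r, rfl, rfl⟩ := LB.dec33 v i (by omega)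
    show H ∈ Sp K ((.cross s, l.length) :: (.cap, l.length + 1) :: B) (l ++ a :: b :: c :: r) ↔
      H ∈ Sp K ((.cross (!s), l.length + 1) :: (.cap, l.length) :: B) (l ++ a :: b :: c :: r)
    have fa := le_sup_left.trans (le_of_eq (ls_append K l (a :: b :: c :: r)).symm)
    have fb := le_sup_right.trans (le_of_eq (ls_append K l (a :: b :: c :: r)).symm)
    simp only [ls_cons, sup_le_iff] at fb
    obtain ⟨fb1, fb2, fb3, fb4⟩ := fb
    cases s
    · show H ∈ Sp K ((.cross false, l.length) :: (.cap, l.length + 1) :: B) (l ++ a :: b :: c :: r) ↔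
        H ∈ Sp K ((.cross true, l.length + 1) :: (.cap, l.length) :: B) (l ++ a :: b :: c :: r)
      rw [mfalse, mtrue1]
      simp only [mcap, mcap1]
      have e : K.op b a = c ↔ a = K.op b c := by
        constructor
        · rintro rfl
          exact (K.invo _ _).symm
        · rintro rfl
          exact K.invo _ _
      have h1 : ls K (l ++ b :: K.op b a :: c :: r) ≤ ls K (l ++ a :: b :: c :: r) := by
        rw [ls_append K l (b :: K.op b a :: c :: r)]
        simp only [ls_cons, sup_le_iff]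
        exact ⟨fa, fb2, (K.sub b a).trans (sup_le fb2 fb1), fb3, fb4⟩
      have h2 : ls K (l ++ a :: K.op b c :: b :: r) ≤ ls K (l ++ a :: b :: c :: r) := by
        rw [ls_append K l (a :: K.op b c :: b :: r)]
        simp only [ls_cons, sup_le_iff]
        exact ⟨fa, fb1, (K.sub b c).trans (sup_le fb2 fb3), fb2, fb4⟩
      constructor
      · rintro ⟨H1, ⟨he, H', hH', rfl⟩, rfl⟩
        refine ⟨_, ⟨e.1 he, H', hH', rfl⟩, ?_⟩
        rw [ab2 (h1.trans le_sup_left), ab2 (h2.trans le_sup_left)]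
      · rintro ⟨H1, ⟨he, H', hH', rfl⟩, rfl⟩
        refine ⟨_, ⟨e.2 he, H', hH', rfl⟩, ?_⟩
        rw [ab2 (h1.trans le_sup_left), ab2 (h2.trans le_sup_left)]
    · show H ∈ Sp K ((.cross true, l.length) :: (.cap, l.length + 1) :: B) (l ++ a :: b :: c :: r) ↔
        H ∈ Sp K ((.cross false, l.length + 1) :: (.cap, l.length) :: B) (l ++ a :: b :: c :: r)
      rw [mtrue, mfalse1]
      simp only [mcap, mcap1]
      have h1 : ls K (l ++ K.op a b :: a :: c :: r) ≤ ls K (l ++ a :: b :: c :: r) := by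
        rw [ls_append K l (K.op a b :: a :: c :: r)]
        simp only [ls_cons, sup_le_iff]
        exact ⟨fa, (K.sub a b).trans (sup_le fb1 fb2), fb1, fb3, fb4⟩
      have h2 : ls K (l ++ a :: c :: K.op c b :: r) ≤ ls K (l ++ a :: b :: c :: r) := by
        rw [ls_append K l (a :: c :: K.op c b :: r)]
        simp only [ls_cons, sup_le_iff]
        exact ⟨fa, fb1, fb3, (K.sub c b).trans (sup_le fb3 fb2), fb4⟩
      constructor
      · rintro ⟨H1, ⟨he, H', hH', rfl⟩, rfl⟩
        refine ⟨_, ⟨he, H', ?_, rfl⟩, ?_⟩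
        · rw [← he]
          exact hH'
        · rw [ab2 (h1.trans le_sup_left), ab2 (h2.trans le_sup_left)]
      · rintro ⟨H1, ⟨he, H', hH', rfl⟩, rfl⟩
        refine ⟨_, ⟨he, H', ?_, rfl⟩, ?_⟩
        · rw [he]
          exact hH'
        · rw [ab2 (h1.trans le_sup_left), ab2 (h2.trans le_sup_left)]

end Pool.BraidIndex.Cox
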