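import Pool.Agent.Work.MP_9d4fac_cox.Interface

set_option autoImplicit false

namespace Pool.BraidIndex.Cox

open Pool.BraidIndex

namespace Row

variable {Q L : Type} [SemilatticeSup L] [OrderBot L] (K : Kei Q L)

theorem ls_nil : ls K [] = ⊥ := rfl

theorem ls_cons (a : Q) (v : List Q) : ls K (a :: v) = K.U a ⊔ ls K v := rfl

theorem ls_append (v w : List Q) : ls K (v ++ w) = ls K v ⊔ ls K w := by
  induction v with
  | nil => rw [List.nil_append, ls_nil, bot_sup_eq]
  | cons a v ih => rw [List.cons_append, ls_cons, ls_cons, ih, sup_assoc]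

/-- the supremum of the supports of the starting colours is below every element of `Sp` -/
theorem ls_le (D : List Piece) (v : List Q) (H : L) (h : H ∈ Sp K D v) : ls K v ≤ H := by
  cases D with
  | nil =>
    obtain ⟨rfl, rfl⟩ := h
    exact le_of_eq (ls_nil K)
  | cons q D =>
    obtain ⟨v', _, H', _, rfl⟩ := h
    exact le_sup_left

/-- one crossing -/
def stp (s : Bool) (x : Q × Q) : Q × Q := if s then (K.op x.1 x.2, x.1) else (x.2, K.op x.2 x.1)

theorem stp_true : stp K true = tw K := rfl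

theorem stp_cols (s : Bool) (a b : Q) :
    [(stp K s (a, b)).1, (stp K s (a, b)).2] ∈ cols K (.cross s) [a, b] := by
  cases s
  · exact Set.mem_singleton _
  · exact Set.mem_singleton _

theorem stp_false_tw : Function.LeftInverse (stp K false) (tw K) := by
  rintro ⟨a, b⟩
  show (a, K.op a (K.op a b)) = (a, b)
  rw [K.invo]

theorem stp_U (s : Bool) (x : Q × Q) :
    K.U (stp K s x).1 ⊔ K.U (stp K s x).2 ≤ K.U x.1 ⊔ K.U x.2 := by
  cases s
  · show K.U x.2 ⊔ K.U (K.op x.2 x.1) ≤ K.U x.1 ⊔ K.U x.2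
    refine sup_le le_sup_right ((K.sub _ _).trans ?_)
    rw [sup_comm]
  · show K.U (K.op x.1 x.2) ⊔ K.U x.1 ≤ K.U x.1 ⊔ K.U x.2
    exact sup_le (K.sub _ _) le_sup_left

theorem iter_U (s : Bool) (x : Q × Q) (j : ℕ) :
    K.U ((stp K s)^[j] x).1 ⊔ K.U ((stp K s)^[j] x).2 ≤ K.U x.1 ⊔ K.U x.2 := by
  induction j with
  | zero => exact le_rfl
  | succ j ih =>
    rw [Function.iterate_succ_apply']
    exact (stp_U K s _).trans ih

theorem iter_ls (s : Bool) (l t : List Q) (x : Q × Q) (j : ℕ) :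
    ls K (l ++ [((stp K s)^[j] x).1, ((stp K s)^[j] x).2] ++ t) ≤ ls K (l ++ [x.1, x.2] ++ t) := by
  rw [ls_append, ls_append, ls_append, ls_append, ls_cons, ls_cons, ls_cons, ls_cons, ls_nil,
    sup_bot_eq, sup_bot_eq]
  exact sup_le_sup_right (sup_le_sup_left (iter_U K s x j) _) _

theorem run (s : Bool) (B : List Piece) (l t : List Q) (H : L) (r : ℕ) : ∀ x : Q × Q,
    (∀ j < r, ls K (l ++ [((stp K s)^[j] x).1, ((stp K s)^[j] x).2] ++ t) ≤ H) →
    H ∈ Sp K B (l ++ [((stp K s)^[r] x).1, ((stp K s)^[r] x).2] ++ t) →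
    H ∈ Sp K (List.replicate r (Kind.cross s, l.length) ++ B) (l ++ [x.1, x.2] ++ t) := by
  induction r with
  | zero =>
    intro x _ h
    exact h
  | succ r ih =>
    intro x hj h
    rw [List.replicate_succ, List.cons_append]
    refine ⟨l ++ [(stp K s x).1, (stp K s x).2] ++ t, ?_, H, ?_, ?_⟩
    · exact ⟨l, [x.1, x.2], t, [(stp K s x).1, (stp K s x).2], rfl, rfl, rfl,
        stp_cols K s x.1 x.2, rfl⟩
    · refine ih (stp K s x) (fun j hj' => ?_) h
      exact hj (j + 1) (by omega)
    · exact (sup_eq_right.2 (hj 0 (Nat.succ_pos r))).symm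

end Row

open Row in
theorem c_row : T_row := by
  intro Q L _ _ K i r s B l t a b H hl htw hH
  subst hl
  have hfix : (stp K s)^[r] (a, b) = (a, b) := by
    cases s with
    | true => exact htw
    | false =>
      have h := (stp_false_tw K).iterate r (a, b)
      rwa [htw] at h
  refine run K s B l t H r (a, b) (fun j _ => ?_) ?_
  · exact (iter_ls K s l t (a, b) j).trans (ls_le K _ _ _ hH)
  · rw [hfix]
    exact hH

end Pool.BraidIndex.Cox
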